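import Pool.Agent.Run7.h811.WS.AlB

/-!
Piece W2a of the project WS: the antidivergence of the waves, part C.
-/

set_option autoImplicit false

open MeasureTheory Set Filter Topology
open scoped ContDiff ENNReal

namespace Pool.Agent.Run7.h811.WS

open H459R3.NS Pool.Agent.Run7 Pool.Agent.Run7.h782.GD Pool.Agent.Run7.h782.GS
open Pool.Agent.Run7.h782.WS Pool.Agent.Run7.h969.GG

/-- The square of a normalised sum of sines. -/
noncomputable def sg2 (N : ℕ) (M : Fin N → ℕ) (n : K3) (x : V) : ℝ :=
  (∑ l, Real.sin (2 * Real.pi * (M l * ph n x))) ^ 2 / N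

theorem ph_cont (n : K3) : Continuous (ph n) := (ph_contDiff n (n := 0)).continuous

theorem sg2_cont (N : ℕ) (M : Fin N → ℕ) (n : K3) : Continuous (sg2 N M n) := by
  have := ph_cont n
  unfold sg2
  fun_prop

theorem sg2_int {f : V → ℝ} (hf : Continuous f) {n : K3} {ρ : ℝ} {M₀ : ℕ} (hρ : 0 ≤ ρ)
    (hR : ∀ m : ℕ, M₀ ≤ m → |∫ x in cube, f x * Real.cos (2 * Real.pi * (m * ph n x))| ≤ ρ)
    {N : ℕ} (hN : 0 < N) {M : Fin N → ℕ} (h1 : ∀ l, M₀ ≤ M l)
    (h2 : ∀ l l', l < l' → M₀ + M l ≤ M l') :
    ∫ x in cube, f x * sg2 N M n x ≤ (∫ x in cube, f x) / 2 + N * ρ := by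
  have hph := ph_cont n
  set θ : Fin N → V → ℝ := fun l x => 2 * Real.pi * (M l * ph n x) with hθ
  have hθc : ∀ l, Continuous (θ l) := fun l => by simp only [hθ]; fun_prop
  have hN' : (0 : ℝ) < N := by exact_mod_cast hN
  have e1 : ∀ x, f x * sg2 N M n x = ∑ l, ∑ l', (1 / (2 * N)) *
      (f x * Real.cos (θ l x - θ l' x) - f x * Real.cos (θ l x + θ l' x)) := by
    intro x
    have e2 : (∑ l, Real.sin (θ l x)) ^ 2 = ∑ l, ∑ l', Real.sin (θ l x) * Real.sin (θ l' x) := by
      rw [pow_two, Finset.sum_mul_sum]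
    unfold sg2
    show f x * ((∑ l, Real.sin (θ l x)) ^ 2 / N) = _
    rw [e2, Finset.sum_div, Finset.mul_sum]
    refine Finset.sum_congr rfl fun l _ => ?_
    rw [Finset.sum_div, Finset.mul_sum]
    refine Finset.sum_congr rfl fun l' _ => ?_
    rw [Real.cos_sub, Real.cos_add]
    field_simp
    ring
  simp_rw [e1]
  have hci : ∀ l l', Continuous fun x => f x * Real.cos (θ l x - θ l' x) := fun l l' =>
    hf.mul (Real.continuous_cos.comp ((hθc l).sub (hθc l')))
  have hcj : ∀ l l', Continuous fun x => f x * Real.cos (θ l x + θ l' x) := fun l l' =>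
    hf.mul (Real.continuous_cos.comp ((hθc l).add (hθc l')))
  have e3 : ∀ l l', ∫ x in cube, (1 / (2 * (N : ℝ))) *
      (f x * Real.cos (θ l x - θ l' x) - f x * Real.cos (θ l x + θ l' x))
      = (1 / (2 * N)) * ((∫ x in cube, f x * Real.cos (θ l x - θ l' x))
        - ∫ x in cube, f x * Real.cos (θ l x + θ l' x)) := by
    intro l l'
    rw [integral_const_mul, integral_sub (integrableOn_cube (hci l l'))
      (integrableOn_cube (hcj l l'))]
  have hg : ∀ l l', Integrable (fun x => (1 / (2 * (N : ℝ))) *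
      (f x * Real.cos (θ l x - θ l' x) - f x * Real.cos (θ l x + θ l' x)))
      (volume.restrict cube) := fun l l' =>
    integrableOn_cube (continuous_const.mul ((hci l l').sub (hcj l l')))
  have e4 : ∫ x in cube, ∑ l, ∑ l', (1 / (2 * (N : ℝ))) *
      (f x * Real.cos (θ l x - θ l' x) - f x * Real.cos (θ l x + θ l' x))
      = ∑ l, ∑ l', ∫ x in cube, (1 / (2 * (N : ℝ))) *
      (f x * Real.cos (θ l x - θ l' x) - f x * Real.cos (θ l x + θ l' x)) := by
    rw [integral_finsetSum Finset.univ (fun l _ => integrable_finsetSum Finset.univ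
      fun l' _ => hg l l')]
    exact Finset.sum_congr rfl fun l _ => integral_finsetSum Finset.univ fun l' _ => hg l l'
  rw [e4]
  simp_rw [e3]
  have hplus : ∀ l l', |∫ x in cube, f x * Real.cos (θ l x + θ l' x)| ≤ ρ := by
    intro l l'
    have h := hR (M l + M l') ((h1 l).trans (Nat.le_add_right _ _))
    refine le_trans (le_of_eq ?_) h
    congr 1
    refine integral_congr_ae (Eventually.of_forall fun x => ?_)
    simp only [hθ]
    push_cast
    congr 2
    ring
  have hmin : ∀ l l', l < l' → |∫ x in cube, f x * Real.cos (θ l x - θ l' x)| ≤ ρ := by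
    intro l l' hll
    have h3 := h2 l l' hll
    have h := hR (M l' - M l) (by omega)
    refine le_trans (le_of_eq ?_) h
    congr 1
    refine integral_congr_ae (Eventually.of_forall fun x => ?_)
    simp only [hθ]
    rw [Nat.cast_sub (by omega), ← Real.cos_neg]
    congr 2
    ring
  have hmin' : ∀ l l', l ≠ l' → |∫ x in cube, f x * Real.cos (θ l x - θ l' x)| ≤ ρ := by
    intro l l' hll
    rcases lt_or_gt_of_ne hll with h | h
    · exact hmin l l' h
    · have h3 := hmin l' l h
      refine le_trans (le_of_eq ?_) h3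
      congr 1
      refine integral_congr_ae (Eventually.of_forall fun x => ?_)
      dsimp only
      rw [← Real.cos_neg]
      congr 2
      ring
  set A : ℝ := ∫ x in cube, f x with hA
  have hterm : ∀ l l', (∫ x in cube, f x * Real.cos (θ l x - θ l' x))
      - ∫ x in cube, f x * Real.cos (θ l x + θ l' x) ≤ (if l = l' then A else 0) + 2 * ρ := by
    intro l l'
    have h3 := (abs_le.1 (hplus l l')).1
    by_cases hll : l = l'
    · subst hll
      rw [if_pos rfl]
      have h4 : ∫ x in cube, f x * Real.cos (θ l x - θ l x) = A := by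
        rw [hA]
        refine integral_congr_ae (Eventually.of_forall fun x => ?_)
        dsimp only
        rw [sub_self, Real.cos_zero, mul_one]
      rw [h4]
      linarith
    · rw [if_neg hll]
      have h4 := (abs_le.1 (hmin' l l' hll)).2
      linarith
  calc ∑ l, ∑ l', (1 / (2 * (N : ℝ))) * ((∫ x in cube, f x * Real.cos (θ l x - θ l' x))
        - ∫ x in cube, f x * Real.cos (θ l x + θ l' x))
      ≤ ∑ l : Fin N, ∑ l' : Fin N, (1 / (2 * (N : ℝ))) * ((if l = l' then A else 0) + 2 * ρ) :=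
        Finset.sum_le_sum fun l _ => Finset.sum_le_sum fun l' _ =>
          mul_le_mul_of_nonneg_left (hterm l l') (by positivity)
    _ = A / 2 + N * ρ := by
        simp_rw [← Finset.mul_sum, Finset.sum_add_distrib]
        simp only [Finset.sum_ite_eq, Finset.mem_univ, if_true, Finset.sum_const, Finset.card_univ,
          Fintype.card_fin, nsmul_eq_mul]
        field_simp

theorem S_lin {ι : Type*} [Fintype ι] (a : ι → ℂ) {u : ι → K3 → ℂ} (hu : ∀ l, Summable (u l))
    (x : V) : S (fun k => ∑ l, a l * u l k) x = ∑ l, a l * S (u l) x := by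
  unfold S
  have h1 : ∀ k, (∑ l, a l * u l k) * ee k x = ∑ l, a l * (u l k * ee k x) := by
    intro k
    rw [Finset.sum_mul]
    exact Finset.sum_congr rfl fun l _ => by ring
  simp_rw [h1]
  rw [Summable.tsum_finsetSum fun l _ => (summable_term (hu l) x).mul_left (a l)]
  exact Finset.sum_congr rfl fun l _ => tsum_mul_left

theorem L1_wv {s : Cf} (hs : L1 s) (N : ℕ) (n : K3) : L1 (wv N n s) := by
  rw [wv_eq]
  exact L1.add (L1.sp hs _) (L1.sp hs _)

theorem L1.div_len {c : Cf} (hc : L1 c) : Summable fun k => ‖c k‖ / len k := by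
  refine Summable.of_nonneg_of_le (fun k => div_nonneg (norm_nonneg _) (h782.GD.len_nonneg k))
    (fun k => ?_) hc
  by_cases hk : k = 0
  · subst hk
    rw [h782.GD.len_zero, div_zero]
    exact norm_nonneg _
  · exact div_le_self (norm_nonneg _) (h782.GD.one_le_len hk)

theorem al_sum {ι : Type*} (t : Finset ι) {c : ι → Cf} (hc : ∀ j ∈ t, L1 (c j)) :
    al (∑ j ∈ t, c j) ≤ ∑ j ∈ t, al (c j) := by
  classical
  obtain ⟨C, -, hadd, -, hle⟩ := stmAl
  induction t using Finset.induction_on with
  | empty =>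
    rw [Finset.sum_empty, Finset.sum_empty]
    refine (hle 0 (by simp)).trans (le_of_eq ?_)
    simp
  | insert a t ha ih =>
    rw [Finset.sum_insert ha, Finset.sum_insert ha]
    have h1 : ∀ j ∈ t, L1 (c j) := fun j hj => hc j (Finset.mem_insert_of_mem hj)
    exact (hadd _ _ (L1.div_len (hc a (Finset.mem_insert_self a t)))
      (L1.div_len (L1.sum h1))).trans (add_le_add le_rfl (ih h1))

variable {n : K3} {s : Cf} {P : Finset K3}

/-- One direction. -/
theorem al_wave (hn : n ≠ 0) (hP : ∀ p ∉ P, s p = 0) (hk : ∀ p, kd n (s p) = 0) {N : ℕ}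
    (hN : 0 < N) {δ : ℝ} (hδ : 0 < δ) : ∃ M₀ : ℕ, ∀ M : Fin N → ℕ, (∀ l, M₀ ≤ M l) →
      (∀ l l', l < l' → M₀ + M l ≤ M l') →
      al (∑ l, (((M l : ℝ) * len n / Real.sqrt N : ℝ) : ℂ) • wv (M l) n s) ≤ 2 * l1n s + δ := by
  have hN' : (0 : ℝ) < N := by exact_mod_cast hN
  have hN1 : (1 : ℝ) ≤ N := by exact_mod_cast hN
  have hsN : 0 < Real.sqrt N := Real.sqrt_pos.2 hN'
  have hsN1 : 1 ≤ Real.sqrt N := Real.one_le_sqrt.2 hN1
  have hls : L1 s := L1.of_supp hP
  have hsi : ∀ i, Summable fun k => s k i := fun i =>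
    Summable.of_norm (Summable.of_nonneg_of_le (fun _ => norm_nonneg _)
      (fun k => norm_le_pi_norm (s k) i) hls)
  set f : Fin 3 → V → ℝ := fun i x => ‖S (fun k => s k i) x‖ with hf
  have hfc : ∀ i, Continuous (f i) := fun i => (S_continuous (hsi i)).norm
  set ρ : ℝ := δ / (6 * N) with hρ
  set ε : ℝ := δ / (18 * N) with hε
  have hρ0 : 0 < ρ := by positivity
  have hε0 : 0 < ε := by positivity
  have hev1 : ∀ᶠ m : ℕ in atTop, ∀ i,
      |∫ x in cube, f i x * Real.cos (2 * Real.pi * (m * ph n x))| ≤ ρ := by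
    rw [eventually_all]
    intro i
    have h := (riemann_lebesgue (hfc i) hn).abs
    rw [abs_zero] at h
    exact (h.eventually (gt_mem_nhds hρ0)).mono fun m hm => hm.le
  have hev2 : ∀ᶠ m : ℕ in atTop, ∀ i j, er n s P m i j ≤ ε := by
    rw [eventually_all]
    intro i
    rw [eventually_all]
    intro j
    exact ((er_lim hn hk i j).eventually (gt_mem_nhds hε0)).mono fun m hm => hm.le
  obtain ⟨M₀, hM₀⟩ := eventually_atTop.1 (hev1.and hev2)
  refine ⟨M₀, fun M h1 h2 => ?_⟩
  set c : Cf := ∑ l, (((M l : ℝ) * len n / Real.sqrt N : ℝ) : ℂ) • wv (M l) n s with hc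
  have hcL : L1 c := L1.sum fun l _ => L1.smul (L1_wv hls _ _) _
  have hanti : ∀ i j, anti c i j = fun k => ∑ l,
      (((M l : ℝ) * len n / Real.sqrt N : ℝ) : ℂ) * anti (wv (M l) n s) i j k := by
    intro i j
    funext k
    rw [anti_eq, hc, Finset.sum_apply, ac_sum]
    refine Finset.sum_congr rfl fun l _ => ?_
    rw [Pi.smul_apply, ac_smul, anti_eq]
  have hSanti : ∀ i j x, S (anti c i j) x = ∑ l,
      (((M l : ℝ) * len n / Real.sqrt N : ℝ) : ℂ) * S (anti (wv (M l) n s) i j) x := by
    intro i j x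
    rw [hanti]
    exact S_lin _ (fun l => anti_summable (L1.div_len (L1_wv hls _ _)) i j) x
  have hpt : ∀ i j x, ‖S (anti c i j) x‖
      ≤ (f i x + f j x) * (1 + sg2 N M n x) / (2 * Real.pi) + N * ε := by
    intro i j x
    set b : ℂ := ∑ p ∈ P, bc i j n (s p) * ee p x with hb
    have hbn : ‖b‖ ≤ (f i x + f j x) / (2 * Real.pi) := S_bc hn hP i j x
    set y : ℝ := ∑ l, Real.sin (2 * Real.pi * (M l * ph n x)) with hy
    have e1 : S (anti c i j) x = (((Real.sqrt N)⁻¹ : ℝ) : ℂ) *
        (b * (((2 * y : ℝ) : ℂ) * Complex.I)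
        + ∑ l, (((M l : ℂ) * len n) * S (anti (wv (M l) n s) i j) x
          - b * (ee (M l • n) x - ee (-(M l • n)) x))) := by
      rw [hSanti, Finset.sum_sub_distrib, ← Finset.mul_sum]
      have e2 : ∑ l, (ee (M l • n) x - ee (-(M l • n)) x) = ((2 * y : ℝ) : ℂ) * Complex.I := by
        simp_rw [ee_sub]
        rw [← Finset.sum_mul, ← Complex.ofReal_sum, hy, Finset.mul_sum]
      rw [e2, add_sub_cancel, Finset.mul_sum]
      refine Finset.sum_congr rfl fun l _ => ?_
      push_cast
      ring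
    rw [e1, norm_mul, Complex.norm_real, Real.norm_of_nonneg (by positivity)]
    have h3 : ‖b * (((2 * y : ℝ) : ℂ) * Complex.I)
        + ∑ l, (((M l : ℂ) * len n) * S (anti (wv (M l) n s) i j) x
          - b * (ee (M l • n) x - ee (-(M l • n)) x))‖ ≤ ‖b‖ * (2 * |y|) + N * ε := by
      refine (norm_add_le _ _).trans (add_le_add (le_of_eq ?_) ?_)
      · rw [norm_mul, norm_mul, Complex.norm_I, mul_one, Complex.norm_real, Real.norm_eq_abs,
          abs_mul, abs_two]
      · refine (norm_sum_le _ _).trans ?_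
        refine (Finset.sum_le_sum fun l _ => (S_wv hP (M l) i j x).trans
          ((hM₀ (M l) (h1 l)).2 i j)).trans (le_of_eq ?_)
        rw [Finset.sum_const, Finset.card_univ, Fintype.card_fin, nsmul_eq_mul]
    have h4 : (Real.sqrt N)⁻¹ * (2 * |y|) ≤ 1 + sg2 N M n x := by
      have h5 : sg2 N M n x = ((Real.sqrt N)⁻¹ * |y|) ^ 2 := by
        rw [mul_pow, inv_pow, Real.sq_sqrt hN'.le, sq_abs]
        show y ^ 2 / N = _
        ring
      rw [h5]
      nlinarith [sq_nonneg ((Real.sqrt N)⁻¹ * |y| - 1)]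
    have h6 : (Real.sqrt N)⁻¹ ≤ 1 := inv_le_one_of_one_le₀ hsN1
    calc (Real.sqrt N)⁻¹ * ‖_‖ ≤ (Real.sqrt N)⁻¹ * (‖b‖ * (2 * |y|) + N * ε) :=
          mul_le_mul_of_nonneg_left h3 (by positivity)
      _ = ‖b‖ * ((Real.sqrt N)⁻¹ * (2 * |y|)) + (Real.sqrt N)⁻¹ * (N * ε) := by ring
      _ ≤ ((f i x + f j x) / (2 * Real.pi)) * (1 + sg2 N M n x) + 1 * (N * ε) := by
          refine add_le_add ?_ (mul_le_mul_of_nonneg_right h6 (by positivity))
          exact mul_le_mul hbn h4 (by positivity) (by positivity)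
      _ = _ := by ring
  set A : Fin 3 → ℝ := fun i => ∫ x in cube, f i x with hA
  have hA0 : ∀ i, 0 ≤ A i := fun i => integral_nonneg fun x => norm_nonneg _
  have hB : ∀ i, ∫ x in cube, f i x * sg2 N M n x ≤ A i / 2 + N * ρ := fun i =>
    sg2_int (hfc i) hρ0.le (fun m hm => (hM₀ m hm).1 i) hN h1 h2
  have hsg := sg2_cont N M n
  have hint : ∀ i j, ∫ x in cube, ‖S (anti c i j) x‖
      ≤ (3 / 2 * (A i + A j) + 2 * N * ρ) / (2 * Real.pi) + N * ε := by
    intro i j
    have hcont : Continuous fun x => (f i x + f j x) * (1 + sg2 N M n x) / (2 * Real.pi) + N * ε := by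
      have := hfc i
      have := hfc j
      fun_prop
    have h3 := setIntegral_mono_on (integrableOn_cube
      (S_continuous (anti_summable (L1.div_len hcL) i j)).norm)
      (integrableOn_cube hcont) (measurableSet_Icc : MeasurableSet cube) (fun x _ => hpt i j x)
    refine h3.trans ?_
    have e5 : ∫ x in cube, ((f i x + f j x) * (1 + sg2 N M n x) / (2 * Real.pi) + N * ε)
        = (A i + A j + (∫ x in cube, f i x * sg2 N M n x)
          + ∫ x in cube, f j x * sg2 N M n x) / (2 * Real.pi) + N * ε := by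
      have hi1 : Integrable (f i) (volume.restrict cube) := integrableOn_cube (hfc i)
      have hi2 : Integrable (f j) (volume.restrict cube) := integrableOn_cube (hfc j)
      have hi3 : Integrable (fun x => f i x * sg2 N M n x) (volume.restrict cube) :=
        integrableOn_cube ((hfc i).mul hsg)
      have hi4 : Integrable (fun x => f j x * sg2 N M n x) (volume.restrict cube) :=
        integrableOn_cube ((hfc j).mul hsg)
      have hi5 : Integrable (fun x => f i x + f j x) (volume.restrict cube) := hi1.add hi2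
      have hi6 : Integrable (fun x => f i x + f j x + f i x * sg2 N M n x)
        (volume.restrict cube) := hi5.add hi3
      have hi7 : Integrable (fun x => f i x + f j x + f i x * sg2 N M n x + f j x * sg2 N M n x)
        (volume.restrict cube) := hi6.add hi4
      have := cube_finite
      have e6 : ∀ x, (f i x + f j x) * (1 + sg2 N M n x) / (2 * Real.pi) + N * ε
          = (f i x + f j x + f i x * sg2 N M n x + f j x * sg2 N M n x) / (2 * Real.pi)
            + N * ε := fun x => by ring
      simp_rw [e6]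
      rw [integral_add (hi7.div_const _) (integrable_const _), integral_div,
        integral_add hi6 hi4, integral_add hi5 hi3, integral_add hi1 hi2, integral_const,
        measureReal_restrict_apply_univ, Measure.real, volume_cube]
      simp [hA]
    rw [e5]
    refine add_le_add (div_le_div_of_nonneg_right ?_ (by positivity)) le_rfl
    have h4 := hB i
    have h5 := hB j
    linarith
  have hl1 : l1n s = ∑ i, A i := rfl
  have hpi := Real.pi_gt_three
  have hl0 : 0 ≤ l1n s := by rw [hl1]; exact Finset.sum_nonneg fun i _ => hA0 i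
  unfold al
  calc ∑ i, ∑ j, ∫ x in cube, ‖S (anti c i j) x‖
      ≤ ∑ i, ∑ j, ((3 / 2 * (A i + A j) + 2 * N * ρ) / (2 * Real.pi) + N * ε) :=
        Finset.sum_le_sum fun i _ => Finset.sum_le_sum fun j _ => hint i j
    _ = (9 * l1n s + 18 * (N * ρ)) / (2 * Real.pi) + 9 * (N * ε) := by
        rw [hl1]
        simp only [Fin.sum_univ_three]
        ring
    _ ≤ (9 * l1n s + 18 * (N * ρ)) / 6 + 9 * (N * ε) := by
        refine add_le_add (div_le_div_of_nonneg_left (by positivity) (by norm_num) ?_) le_rfl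
        linarith
    _ = 3 / 2 * l1n s + δ := by
        rw [hρ, hε]
        field_simp
        ring
    _ ≤ 2 * l1n s + δ := by linarith

/-- **Piece W2a.** -/
theorem stmAlW : StmAlW := by
  refine ⟨2, by norm_num, ?_⟩
  intro J N n s P hN hn hP _ hk δ hδ
  have h := fun j => al_wave (hn j) (hP j) (hk j) hN (δ := δ / (J + 1)) (by positivity)
  choose M₁ hM₁ using h
  refine ⟨∑ j, M₁ j, fun M h1 h2 => ?_⟩
  have hle : ∀ j, M₁ j ≤ ∑ j, M₁ j := fun j =>
    Finset.single_le_sum (f := M₁) (fun _ _ => Nat.zero_le _) (Finset.mem_univ j)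
  have h3 : ∀ j, al (∑ l, (((M j l : ℝ) * len (n j) / Real.sqrt N : ℝ) : ℂ)
      • wv (M j l) (n j) (s j)) ≤ 2 * l1n (s j) + δ / (J + 1) := fun j =>
    hM₁ j (M j) (fun l => (hle j).trans (h1 j l))
      (fun l l' hll => (Nat.add_le_add_right (hle j) _).trans (h2 j l l' hll))
  refine (al_sum Finset.univ fun j _ => L1.sum fun l _ =>
    L1.smul (L1_wv (L1.of_supp (hP j)) _ _) _).trans ?_
  refine (Finset.sum_le_sum fun j _ => h3 j).trans ?_
  rw [Finset.sum_add_distrib, ← Finset.mul_sum, Finset.sum_const, Finset.card_univ,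
    Fintype.card_fin, nsmul_eq_mul]
  refine add_le_add le_rfl ?_
  rw [mul_div_assoc', div_le_iff₀ (by positivity)]
  nlinarith

end Pool.Agent.Run7.h811.WS
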