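import Pool.Agent.Run7.h782.WS.Defs
import Pool.Agent.Run7.h744.GS.P9

/-!
Piece W5a of the project WS: from the iteration in coefficients to fields (variant of the piece P9
of helper744).
-/

set_option autoImplicit false

open MeasureTheory Set Filter Topology
open scoped ContDiff ENNReal

namespace Pool.Agent.Run7.h811.WS

open H459R3.NS Pool.Agent.Run7 Pool.Agent.Run7.h782.GD Pool.Agent.Run7.h782.GS
open Pool.Agent.Run7.h782.WS Pool.Agent.Run7.h744.GS

/-- Integrability over a strip from the integrability of the integrals over the cell. -/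
theorem strip_int {f : ℝ × V → ℝ} {T : ℝ} (hf : ContinuousOn f (Ioc 0 T ×ˢ cube))
    (hf0 : ∀ z, 0 ≤ f z) (hfx : ∀ t ∈ Ioc 0 T, IntegrableOn (fun x => f (t, x)) cube)
    {D : ℝ → ℝ} (hD : IntegrableOn D (Ioc 0 T))
    (h : ∀ t ∈ Ioc 0 T, ∫ x in cube, f (t, x) ≤ D t) : IntegrableOn f (Ioc 0 T ×ˢ cube) := by
  have hm : AEStronglyMeasurable f (volume.restrict (Ioc 0 T ×ˢ cube)) :=
    hf.aestronglyMeasurable (measurableSet_Ioc.prod measurableSet_Icc)
  have he : (volume.restrict (Ioc (0 : ℝ) T ×ˢ cube) : Measure (ℝ × V))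
      = (volume.restrict (Ioc 0 T)).prod (volume.restrict cube) := by
    rw [Measure.prod_restrict]
    rfl
  unfold IntegrableOn
  rw [he] at hm ⊢
  rw [integrable_prod_iff hm]
  refine ⟨(ae_restrict_iff' measurableSet_Ioc).2 (Eventually.of_forall hfx), ?_⟩
  refine Integrable.mono' hD hm.norm.integral_prod_right' ?_
  refine (ae_restrict_iff' measurableSet_Ioc).2 (Eventually.of_forall fun t ht => ?_)
  have e : ∫ x in cube, ‖f (t, x)‖ = ∫ x in cube, f (t, x) :=
    integral_congr_ae (Eventually.of_forall fun x => Real.norm_of_nonneg (hf0 _))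
  rw [e, Real.norm_of_nonneg (integral_nonneg fun x => hf0 _)]
  exact h t ht

/-- The Fourier coefficients of the field `m i + fld b t (x - t • m) i`. -/
noncomputable def ser (b : ℝ → Cf) (m : V) (t : ℝ) (i : Fin 3) (k : K3) : ℂ :=
  (if k = 0 then ((m i : ℝ) : ℂ) else 0) + ee k (-(t • m)) * b t k i

theorem ser_aux1 {b : ℝ → Cf} {m : V} {t : ℝ} {i : Fin 3} (hbi : Summable fun k => b t k i) :
    Summable fun k => ee k (-(t • m)) * b t k i := by
  refine Summable.of_norm ?_
  refine hbi.norm.congr fun k => ?_
  rw [norm_mul, norm_ee, one_mul]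

theorem ser_aux2 {m : V} {i : Fin 3} :
    Summable fun k : K3 => (if k = 0 then ((m i : ℝ) : ℂ) else 0) :=
  summable_of_hasFiniteSupport ((Set.finite_singleton (0 : K3)).subset fun k hk => by
    by_contra h
    exact hk (if_neg h))

theorem ser_summable {b : ℝ → Cf} {m : V} {t : ℝ} {i : Fin 3} (hbi : Summable fun k => b t k i) :
    Summable (ser b m t i) := ser_aux2.add (ser_aux1 hbi)

theorem ser_eq {b : ℝ → Cf} {m : V} {t : ℝ} {i : Fin 3} (hbi : Summable fun k => b t k i) (x : V) :
    (m + fld b t (x - t • m)) i = (S (ser b m t i) x).re := by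
  have hS0 : ∀ x, S (fun k : K3 => if k = 0 then ((m i : ℝ) : ℂ) else 0) x = m i := by
    intro x
    unfold S
    rw [tsum_eq_single 0 (fun k hk => by dsimp only; rw [if_neg hk, zero_mul])]
    dsimp only
    rw [if_pos rfl, ee_zero, mul_one]
  have e1 : S (ser b m t i) x = S (fun k : K3 => if k = 0 then ((m i : ℝ) : ℂ) else 0) x
      + S (fun k => ee k (-(t • m)) * b t k i) x := by
    unfold S
    rw [← (summable_term ser_aux2 x).tsum_add (summable_term (ser_aux1 hbi) x)]
    exact tsum_congr fun k => by simp only [ser]; ring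
  rw [e1, hS0, Complex.add_re, Complex.ofReal_re, Pi.add_apply]
  congr 1
  show (S (fun k => b t k i) (x - t • m)).re = _
  rw [sub_eq_add_neg, S_shift]

theorem ser_norm_sq_le {b : ℝ → Cf} {m : V} {t : ℝ} (i : Fin 3) (h0 : b t 0 = 0) (k : K3) :
    ‖ser b m t i k‖ ^ 2 ≤ (if k = 0 then ‖m‖ ^ 2 else 0) + ‖b t k‖ ^ 2 := by
  unfold ser
  by_cases hk : k = 0
  · subst hk
    rw [if_pos rfl, if_pos rfl, h0, Pi.zero_apply, mul_zero, add_zero, norm_zero, Complex.norm_real]
    have := norm_le_pi_norm m i
    nlinarith [norm_nonneg (m i)]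
  · rw [if_neg hk, if_neg hk, zero_add, zero_add, norm_mul, norm_ee, one_mul]
    exact pow_le_pow_left₀ (norm_nonneg _) (norm_le_pi_norm (b t k) i) 2

/-- The energy of the field at a positive time. -/
theorem int_sq_le {b : ℝ → Cf} {m : V} {t : ℝ} (i : Fin 3) (hs : Summable fun k => ‖b t k‖)
    (h0 : b t 0 = 0) :
    ∫ x in cube, (m + fld b t (x - t • m)) i ^ 2 ≤ ‖m‖ ^ 2 + ∑' k, ‖b t k‖ ^ 2 := by
  have hbi : Summable fun k => b t k i :=
    Summable.of_norm (Summable.of_nonneg_of_le (fun _ => norm_nonneg _)
      (fun k => norm_le_pi_norm (b t k) i) hs)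
  have hd := ser_summable (m := m) hbi
  have h1 : ∫ x in cube, (m + fld b t (x - t • m)) i ^ 2 ≤ ∫ x in cube, ‖S (ser b m t i) x‖ ^ 2 := by
    refine setIntegral_mono_on ?_ ?_ measurableSet_Icc fun x _ => ?_
    · refine integrableOn_cube ?_
      have : (fun x => (m + fld b t (x - t • m)) i ^ 2) = fun x => (S (ser b m t i) x).re ^ 2 :=
        funext fun x => by rw [ser_eq hbi]
      rw [this]
      exact (Complex.continuous_re.comp (S_continuous hd)).pow 2
    · exact integrableOn_cube ((S_continuous hd).norm.pow 2)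
    · rw [ser_eq hbi, ← sq_abs]
      exact pow_le_pow_left₀ (abs_nonneg _) (Complex.abs_re_le_norm _) 2
  refine h1.trans ?_
  rw [integral_norm_sq hd, n2_sq]
  have hs2 : Summable fun k => ‖b t k‖ ^ 2 := by
    refine Summable.of_norm_bounded_eventually (g := fun k => ‖b t k‖) hs ?_
    have := hs.tendsto_cofinite_zero.eventually (gt_mem_nhds (zero_lt_one' ℝ))
    filter_upwards [this] with k hk
    rw [Real.norm_of_nonneg (by positivity)]
    nlinarith [norm_nonneg (b t k)]
  have hs3 : Summable fun k : K3 => (if k = 0 then ‖m‖ ^ 2 else 0) :=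
    summable_of_hasFiniteSupport ((Set.finite_singleton (0 : K3)).subset fun k hk => by
      by_contra h
      exact hk (if_neg h))
  refine (Summable.tsum_le_tsum (fun k => ser_norm_sq_le i h0 k) (summable_sq hd)
    (hs3.add hs2)).trans (le_of_eq ?_)
  rw [hs3.tsum_add hs2]
  congr 1
  rw [tsum_eq_single 0 (fun k hk => if_neg hk), if_pos rfl]

/-- **Piece W5a.** -/
theorem initW (hIter : StmIterW) (hTg : StmTg) (hP2 : StmPhys2) : StmInitW := by
  intro ν hν u₀ hu0 hper hdiv U P hU hmean δ hδ
  have hpi := Real.pi_pos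
  have hsp : ∀ i, SP (fun x => u₀ x i) := fun i =>
    ⟨contDiff_pi.1 hu0 i, fun j x => congrFun (hper j x) i⟩
  have hrap : ∀ i, Rap (fr (fun x => u₀ x i)) := fun i => rap_fr (hsp i)
  have hfrs : ∀ i, Summable (fr (fun x => u₀ x i)) := fun i => (hrap i).summable
  set m : V := fun i => ∫ y in cube, u₀ y i with hm'
  have hm0 : ∀ i, fr (fun x => u₀ x i) 0 = ((m i : ℝ) : ℂ) := fun i => h32.GD.fr_zero_eq _
  -- the shifted target
  set U' : ℝ → V → V := fun t x => -m + U t (x - t • (-m)) with hU'
  have hUs : ∀ T, IsSol ν T U' (fun t x => P t (x - t • (-m))) := fun T =>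
    h32.GD.galilei (hU T) (-m)
  have hU0c : ∀ i, Continuous fun x => U 0 x i := fun i =>
    ((hU 1).sp (t := 0) ⟨le_rfl, one_pos⟩ i).smooth.continuous
  have hmean' : ∀ i, ∫ x in cube, U' 0 x i = 0 := by
    intro i
    have e : ∀ x, U' 0 x i = -(m i) + U 0 x i := by
      intro x
      simp only [hU', zero_smul, sub_zero, Pi.add_apply, Pi.neg_apply]
    simp_rw [e]
    have := cube_finite
    rw [integral_add (integrable_const _) (integrableOn_cube (hU0c i)), hmean i]
    simp only [integral_const, measureReal_restrict_apply_univ, smul_eq_mul]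
    rw [Measure.real, volume_cube]
    simp [hm']
  have hTgU := hTg ν hν U' _ hUs hmean'
  -- the coefficients of the datum
  set c : Cf := fun k => if k = 0 then 0 else vf u₀ k with hc
  have hcs : ∀ k, ‖c k‖ ≤ ∑ i, ‖fr (fun x => u₀ x i) k‖ := by
    intro k
    simp only [hc]
    split_ifs with hk
    · rw [norm_zero]
      exact Finset.sum_nonneg fun _ _ => norm_nonneg _
    · refine (pi_norm_le_iff_of_nonneg (Finset.sum_nonneg fun _ _ => norm_nonneg _)).2 fun i => ?_
      exact Finset.single_le_sum (f := fun i => ‖fr (fun x => u₀ x i) k‖)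
        (fun _ _ => norm_nonneg _) (Finset.mem_univ i)
  have hcS : Summable fun k => ‖c k‖ :=
    Summable.of_nonneg_of_le (fun _ => norm_nonneg _) hcs
      (summable_sum (s := Finset.univ) fun i _ => (hfrs i).norm)
  have hcL : Summable fun k => len k * ‖c k‖ := by
    refine Summable.of_nonneg_of_le
      (fun k => mul_nonneg (h782.GD.len_nonneg k) (norm_nonneg _)) (fun k => ?_)
      (summable_sum (s := Finset.univ) fun i _ => Rap.len_summable (hrap i))
    refine (mul_le_mul_of_nonneg_left (hcs k) (h782.GD.len_nonneg k)).trans (le_of_eq ?_)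
    rw [Finset.mul_sum]
  have hc0 : c 0 = 0 := by simp [hc]
  have hch : Herm c := by
    intro k i
    simp only [hc]
    by_cases hk : k = 0
    · subst hk
      simp
    · rw [if_neg (neg_ne_zero.2 hk), if_neg hk]
      exact h32.GD.fr_neg _ _
  have hcd : Dv c := by
    intro k
    simp only [hc]
    split_ifs with hk
    · exact kd_zero_right k
    · exact fr_div hsp hdiv k
  obtain ⟨b, hb, hbes, hsq, hLq, hL2, hclose⟩ := hIter ν hν _ hTgU c hc0 hch hcd hcS δ hδ
  obtain ⟨p, hp⟩ := hP2 ν b hb m
  -- facts for positive times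
  have hhalf : ∀ t : ℝ, t / 2 + t / 2 = t := fun t => by ring
  have hbt : ∀ t, 0 < t → (Summable fun k => ‖b t k‖) ∧ Herm (b t) ∧ b t 0 = 0 := by
    intro t ht
    have H := hb (t / 2) (by positivity)
    obtain ⟨μ, hμ, C, hC⟩ := H.dec
    have h0 : (0 : ℝ) ≤ t / 2 := by positivity
    refine ⟨?_, ?_, ?_⟩
    · refine Summable.of_nonneg_of_le (fun _ => norm_nonneg _) (fun k => ?_)
        ((h32.GD.summable_exp hμ).mul_left C)
      have := hC (t / 2) h0 k
      simpa only [hhalf] using this
    · have := H.herm (t / 2) h0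
      simpa only [hhalf] using this
    · have := H.zero (t / 2) h0
      simpa only [hhalf] using this
  have hbi : ∀ t, 0 < t → ∀ i, Summable fun k => b t k i := fun t ht i =>
    Summable.of_norm (Summable.of_nonneg_of_le (fun _ => norm_nonneg _)
      (fun k => norm_le_pi_norm (b t k) i) (hbt t ht).1)
  refine ⟨fun t x => m + fld b t (x - t • m), p, hp, ?_, ?_, ?_, ?_⟩
  · -- energy
    intro T i
    have hcont : ContinuousOn (fun z : ℝ × V => (m + fld b z.1 (z.2 - z.1 • m)) i ^ 2)
        (Ioi 0 ×ˢ univ) :=
      ((continuous_apply i).comp_continuousOn hp.smooth_u.continuousOn).pow 2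
    have hfx : ∀ t, 0 < t → Continuous fun x : V => (m + fld b t (x - t • m)) i ^ 2 := by
      intro t ht
      have : (fun x => (m + fld b t (x - t • m)) i ^ 2) = fun x => (S (ser b m t i) x).re ^ 2 :=
        funext fun x => by rw [ser_eq (hbi t ht i)]
      rw [this]
      exact (Complex.continuous_re.comp (S_continuous (ser_summable (hbi t ht i)))).pow 2
    have hA : IntegrableOn (fun z : ℝ × V => (m + fld b z.1 (z.2 - z.1 • m)) i ^ 2)
        (Ioc 0 1 ×ˢ cube) := by
      refine strip_int (D := fun t => ‖m‖ ^ 2 + ∑' k, ‖b t k‖ ^ 2)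
        (hcont.mono (prod_mono (fun t ht => ht.1) (subset_univ _))) (fun z => sq_nonneg _)
        (fun t ht => integrableOn_cube (hfx t ht.1)) ?_ ?_
      · exact Integrable.add (integrableOn_const (by simp)) hL2
      · intro t ht
        obtain ⟨hs, _, hz⟩ := hbt t ht.1
        exact int_sq_le i hs hz
    have hB : IntegrableOn (fun z : ℝ × V => (m + fld b z.1 (z.2 - z.1 • m)) i ^ 2)
        (Icc 1 T ×ˢ cube) := by
      refine ContinuousOn.integrableOn_compact (isCompact_Icc.prod isCompact_Icc) (hcont.mono ?_)
      exact prod_mono (fun t ht => lt_of_lt_of_le one_pos ht.1) (subset_univ _)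
    refine (hA.union hB).mono_set ?_
    rintro ⟨t, x⟩ ⟨ht, hx⟩
    rcases le_or_gt t 1 with h | h
    · exact Or.inl ⟨⟨ht.1, h⟩, hx⟩
    · exact Or.inr ⟨⟨h.le, ht.2⟩, hx⟩
  · -- the bound in time
    set Nb : ℝ → ℝ := fun t => ∑' k, ‖b t k‖ with hNb
    have hNb0 : ∀ t, 0 ≤ Nb t := fun t => tsum_nonneg fun _ => norm_nonneg _
    refine ⟨fun t => ‖m‖ + Nb t, fun t ht x i => ?_, ?_, fun q hq => ?_⟩
    · obtain ⟨hs, _, _⟩ := hbt t ht
      show |m i + fld b t (x - t • m) i| ≤ _
      refine (abs_add_le _ _).trans (add_le_add ?_ ?_)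
      · rw [← Real.norm_eq_abs]
        exact norm_le_pi_norm m i
      · refine (Complex.abs_re_le_norm _).trans ((norm_S_le (hbi t ht i) _).trans ?_)
        exact Summable.tsum_le_tsum (fun k => norm_le_pi_norm _ i) (hbi t ht i).norm hs
    · have h1 : Tendsto (fun t : ℝ => Real.sqrt t * ‖m‖) (𝓝[>] 0) (𝓝 0) := by
        have h2 : Tendsto (fun t : ℝ => Real.sqrt t * ‖m‖) (𝓝 0) (𝓝 (Real.sqrt 0 * ‖m‖)) :=
          (Real.continuous_sqrt.tendsto 0).mul_const _
        rw [Real.sqrt_zero, zero_mul] at h2
        exact h2.mono_left nhdsWithin_le_nhds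
      have h3 := h1.add hsq
      rw [add_zero] at h3
      refine h3.congr fun t => ?_
      ring
    · have hq0 : (0 : ℝ) < q := by linarith
      have hN := hLq q hq
      have hmeas : AEStronglyMeasurable (fun t => (Real.sqrt t * (‖m‖ + Nb t)) ^ q / t)
          (volume.restrict (Ioc 0 1)) := by
        have h0 : AEStronglyMeasurable (fun t : ℝ => t) (volume.restrict (Ioc 0 1)) :=
          aestronglyMeasurable_id
        have h1 : AEStronglyMeasurable (fun t => (Real.sqrt t * ‖m‖
            + (((Real.sqrt t * Nb t) ^ q / t) * t) ^ (1 / q)) ^ q / t)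
            (volume.restrict (Ioc 0 1)) := by
          refine (AEMeasurable.div (AEStronglyMeasurable.aemeasurable ?_)
            h0.aemeasurable).aestronglyMeasurable
          have hc1 : Continuous fun y : ℝ => y ^ q :=
            continuous_id.rpow_const fun _ => Or.inr hq0.le
          have hc2 : Continuous fun y : ℝ => y ^ (1 / q) :=
            continuous_id.rpow_const fun _ => Or.inr (by positivity)
          refine hc1.comp_aestronglyMeasurable (AEStronglyMeasurable.add ?_ ?_)
          · exact (Real.continuous_sqrt.comp_aestronglyMeasurable h0).mul_const _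
          · exact hc2.comp_aestronglyMeasurable (hN.aestronglyMeasurable.mul h0)
        refine h1.congr ((ae_restrict_iff' measurableSet_Ioc).2 (Eventually.of_forall fun t ht => ?_))
        have ht0 : 0 < t := ht.1
        show (Real.sqrt t * ‖m‖ + (((Real.sqrt t * Nb t) ^ q / t) * t) ^ (1 / q)) ^ q / t
          = (Real.sqrt t * (‖m‖ + Nb t)) ^ q / t
        rw [div_mul_cancel₀ _ ht0.ne', ← Real.rpow_mul (mul_nonneg (Real.sqrt_nonneg _) (hNb0 t)),
          mul_one_div, div_self hq0.ne', Real.rpow_one, ← mul_add]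
      have hpow : IntegrableOn (fun t : ℝ => t ^ (q / 2 - 1)) (Ioc 0 1) := by
        have := intervalIntegral.intervalIntegrable_rpow' (a := 0) (b := 1) (r := q / 2 - 1)
          (by linarith)
        rwa [intervalIntegrable_iff_integrableOn_Ioc_of_le zero_le_one] at this
      have hdom : IntegrableOn (fun t => 2 ^ q * ‖m‖ ^ q * t ^ (q / 2 - 1)
          + 2 ^ q * ((Real.sqrt t * Nb t) ^ q / t)) (Ioc 0 1) :=
        Integrable.add (hpow.const_mul _) (hN.const_mul _)
      refine Integrable.mono' hdom hmeas
        ((ae_restrict_iff' measurableSet_Ioc).2 (Eventually.of_forall fun t ht => ?_))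
      have ht0 : 0 < t := ht.1
      have hst : 0 ≤ Real.sqrt t := Real.sqrt_nonneg _
      have h0 : 0 ≤ Real.sqrt t * (‖m‖ + Nb t) :=
        mul_nonneg hst (add_nonneg (norm_nonneg _) (hNb0 t))
      rw [Real.norm_of_nonneg (div_nonneg (Real.rpow_nonneg h0 _) ht0.le)]
      have hsq' : Real.sqrt t ^ q / t = t ^ (q / 2 - 1) := by
        rw [Real.rpow_sub ht0, Real.rpow_one, Real.sqrt_eq_rpow, ← Real.rpow_mul ht0.le]
        congr 2
        ring
      rcases le_total ‖m‖ (Nb t) with h | h
      · calc (Real.sqrt t * (‖m‖ + Nb t)) ^ q / t ≤ (2 * (Real.sqrt t * Nb t)) ^ q / t := by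
              refine div_le_div_of_nonneg_right (Real.rpow_le_rpow h0 ?_ hq0.le) ht0.le
              nlinarith
          _ = 2 ^ q * ((Real.sqrt t * Nb t) ^ q / t) := by
              rw [Real.mul_rpow (by norm_num) (mul_nonneg hst (hNb0 t)), mul_div_assoc]
          _ ≤ _ := le_add_of_nonneg_left (by positivity)
      · calc (Real.sqrt t * (‖m‖ + Nb t)) ^ q / t ≤ (2 * (‖m‖ * Real.sqrt t)) ^ q / t := by
              refine div_le_div_of_nonneg_right (Real.rpow_le_rpow h0 ?_ hq0.le) ht0.le
              nlinarith
          _ = 2 ^ q * ‖m‖ ^ q * t ^ (q / 2 - 1) := by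
              rw [Real.mul_rpow (by norm_num) (mul_nonneg (norm_nonneg _) hst),
                Real.mul_rpow (norm_nonneg _) hst, ← hsq']
              ring
          _ ≤ _ := le_add_of_nonneg_right (mul_nonneg (by positivity)
              (div_nonneg (Real.rpow_nonneg (mul_nonneg hst (hNb0 t)) _) ht0.le))
  · -- attainment of the datum
    intro q hq i
    set Cc : ℝ := ∑' k, ‖c k‖ with hCc
    set κ : ℝ := 2 * Real.pi * (3 * ‖m‖) with hκ
    have hκ0 : 0 ≤ κ := by positivity
    have hbound : ∀ t, 0 < t → bes q (fun x => (m + fld b t (x - t • m)) i - u₀ x i)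
        ≤ 2 ^ (q - 1) * (besC q (fun k => ‖b t k - c k‖)
          + ENNReal.ofReal (1 * (κ * t * Cc) ^ q)) := by
      intro t ht
      obtain ⟨hs, hh, hz⟩ := hbt t ht
      set e : K3 → ℂ := fun k => ee k (-(t • m)) with he
      set d : K3 → ℂ := fun k => (if k = 0 then ((m i : ℝ) : ℂ) else 0) + e k * b t k i with hd
      have hds : Summable fun k => e k * b t k i := by
        refine Summable.of_norm ?_
        refine (hbi t ht i).norm.congr fun k => ?_
        rw [norm_mul, he, norm_ee, one_mul]
      have hm1 : Summable fun k : K3 => (if k = 0 then ((m i : ℝ) : ℂ) else 0) :=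
        summable_of_hasFiniteSupport ((Set.finite_singleton (0 : K3)).subset fun k hk => by
          by_contra h
          exact hk (if_neg h))
      have hdS : Summable d := hm1.add hds
      have hS0 : ∀ x, S (fun k : K3 => if k = 0 then ((m i : ℝ) : ℂ) else 0) x = m i := by
        intro x
        unfold S
        rw [tsum_eq_single 0 (fun k hk => by dsimp only; rw [if_neg hk, zero_mul])]
        dsimp only
        rw [if_pos rfl, ee_zero, mul_one]
      have hdx : ∀ x, (m + fld b t (x - t • m)) i = (S d x).re := by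
        intro x
        have e1 : S d x = S (fun k : K3 => if k = 0 then ((m i : ℝ) : ℂ) else 0) x
            + S (fun k => e k * b t k i) x := by
          unfold S
          rw [← (summable_term hm1 x).tsum_add (summable_term hds x)]
          exact tsum_congr fun k => by simp only [hd]; ring
        rw [e1, hS0, Complex.add_re, Complex.ofReal_re, Pi.add_apply]
        congr 1
        show (S (fun k => b t k i) (x - t • m)).re = _
        rw [sub_eq_add_neg, S_shift]
      have hdh : ∀ k, d (-k) = (starRingEnd ℂ) (d k) := by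
        intro k
        simp only [hd, he]
        rw [map_add, map_mul, ee_neg, hh k i]
        congr 1
        by_cases hk : k = 0
        · rw [if_pos hk, if_pos (neg_eq_zero.2 hk), Complex.conj_ofReal]
        · rw [if_neg hk, if_neg (fun h => hk (neg_eq_zero.1 h)), map_zero]
      have hfun : (fun x => (m + fld b t (x - t • m)) i) = fun x => (S d x).re := funext hdx
      have hcont : Continuous fun x => (S d x).re :=
        Complex.continuous_re.comp (S_continuous hdS)
      have hfr : ∀ k, ‖fr (fun x => (m + fld b t (x - t • m)) i - u₀ x i) k‖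
          ≤ ‖b t k - c k‖ + κ * t * (len k * ‖c k‖) := by
        intro k
        have e2 : (fun x => (m + fld b t (x - t • m)) i - u₀ x i)
            = fun x => (S d x).re - u₀ x i := by
          funext x
          rw [hdx]
        rw [e2, h32.GD.fr_sub hcont (hsp i).smooth.continuous, h32.GD.fr_S hdS hdh]
        by_cases hk : k = 0
        · subst hk
          simp only [hd, if_true, hz, Pi.zero_apply, mul_zero, add_zero, hm0, sub_self, norm_zero,
            hc0]
          positivity
        · have e3 : d k - fr (fun x => u₀ x i) k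
              = e k * (b t k i - c k i) + (e k - 1) * c k i := by
            simp only [hd, hc, if_neg hk]
            show _ - fr (fun x => u₀ x i) k = _ * (_ - fr (fun x => u₀ x i) k)
              + _ * fr (fun x => u₀ x i) k
            ring
          rw [e3]
          refine (norm_add_le _ _).trans (add_le_add ?_ ?_)
          · rw [norm_mul, he, norm_ee, one_mul]
            exact norm_le_pi_norm (b t k - c k) i
          · rw [norm_mul]
            have h5 : ‖e k - 1‖ ≤ κ * t * len k := by
              refine (norm_ee_sub_one k _).trans ?_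
              have h6 : ph k (-(t • m)) = -(t * ph k m) := by
                rw [← neg_smul, ph_smul]
                ring
              rw [h6, abs_neg, abs_mul, abs_of_pos ht]
              have h7 := abs_ph_le k m
              calc 2 * Real.pi * (t * |ph k m|) ≤ 2 * Real.pi * (t * (3 * len k * ‖m‖)) := by
                    gcongr
                _ = κ * t * len k := by rw [hκ]; ring
            calc ‖e k - 1‖ * ‖c k i‖ ≤ κ * t * len k * ‖c k‖ :=
                  mul_le_mul h5 (norm_le_pi_norm (c k) i) (norm_nonneg _)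
                    (mul_nonneg (mul_nonneg hκ0 ht.le) (h782.GD.len_nonneg k))
              _ = _ := by ring
      have hs1 : Summable fun k => ‖b t k - c k‖ :=
        Summable.of_nonneg_of_le (fun _ => norm_nonneg _) (fun k => norm_sub_le _ _) (hs.add hcS)
      have hs2 : Summable fun k => κ * t * (len k * ‖c k‖) := hcL.mul_left _
      have hn2 : ∀ k, 0 ≤ κ * t * (len k * ‖c k‖) := fun k =>
        mul_nonneg (mul_nonneg hκ0 ht.le) (mul_nonneg (h782.GD.len_nonneg k) (norm_nonneg _))
      refine (bes_le_besC (by linarith) (hs1.add hs2) hfr).trans ?_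
      refine (besC_add_le (by linarith) (fun k => norm_nonneg _) hn2).trans ?_
      refine mul_le_mul' le_rfl (add_le_add le_rfl ?_)
      refine (bes_one q hq _ hn2 (by rw [hc0, norm_zero]; ring) hs2).trans (le_of_eq ?_)
      congr 3
      rw [hCc, ← tsum_mul_left]
      refine tsum_congr fun k => ?_
      by_cases hk : k = 0
      · subst hk
        simp [hc0]
      · have := (h782.GD.len_pos hk).ne'
        field_simp
    have hlim2 : Tendsto (fun t : ℝ => ENNReal.ofReal (1 * (κ * t * Cc) ^ q)) (𝓝[>] 0) (𝓝 0) := by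
      have h1 : Tendsto (fun t : ℝ => 1 * (κ * t * Cc) ^ q) (𝓝 0) (𝓝 (1 * (κ * 0 * Cc) ^ q)) := by
        refine Tendsto.const_mul _ ?_
        refine Tendsto.rpow_const ?_ (Or.inr (by linarith))
        exact ((tendsto_id.const_mul κ).mul_const Cc)
      have h2 : 1 * (κ * 0 * Cc) ^ q = 0 := by
        rw [mul_zero, zero_mul, Real.zero_rpow (by linarith), mul_zero]
      rw [h2] at h1
      have h3 := ENNReal.tendsto_ofReal (h1.mono_left (nhdsWithin_le_nhds (s := Ioi (0 : ℝ))))
      rwa [ENNReal.ofReal_zero] at h3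
    have hlim : Tendsto (fun t : ℝ => (2 : ℝ≥0∞) ^ (q - 1) * (besC q (fun k => ‖b t k - c k‖)
        + ENNReal.ofReal (1 * (κ * t * Cc) ^ q))) (𝓝[>] 0) (𝓝 0) := by
      have h1 := (hbes q hq).add hlim2
      rw [add_zero] at h1
      have h2 := ENNReal.Tendsto.const_mul (a := (2 : ℝ≥0∞) ^ (q - 1)) h1
        (Or.inr (ENNReal.rpow_ne_top_of_nonneg (by linarith) (by norm_num)))
      rwa [mul_zero] at h2
    refine tendsto_of_tendsto_of_tendsto_of_le_of_le' tendsto_const_nhds hlim
      (Eventually.of_forall fun _ => zero_le) ?_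
    filter_upwards [self_mem_nhdsWithin] with t ht
    exact hbound t ht
  · -- closeness to the target
    intro t ht x i
    have ht0 : 0 < t := hδ.trans_le ht
    obtain ⟨hs, _, _⟩ := hbt t ht0
    set y : V := x - t • m with hy
    have hspU : SP (fun z => U' t z i) :=
      (hUs (t + 1)).sp (t := t) ⟨ht0.le, by linarith⟩ i
    have hUy : U t x i = m i + U' t y i := by
      simp only [hU', Pi.add_apply, Pi.neg_apply, hy]
      have : x - t • m - t • (-m) = x := by
        rw [smul_neg]
        abel
      rw [this]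
      ring
    have hfrU : Summable (fr (fun z => U' t z i)) := (rap_fr hspU).summable
    have hUre : U' t y i = (S (fr (fun z => U' t z i)) y).re := by
      rw [S_fr hspU, Complex.ofReal_re]
    show |(m + fld b t y) i - U t x i| ≤ δ
    have e1 : (m + fld b t y) i - U t x i
        = (S (fun k => b t k i - fr (fun z => U' t z i) k) y).re := by
      rw [hUy, Pi.add_apply, hUre]
      have e2 : S (fun k => b t k i - fr (fun z => U' t z i) k) y
          = S (fun k => b t k i) y - S (fr (fun z => U' t z i)) y := by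
        unfold S
        rw [← (summable_term (hbi t ht0 i) y).tsum_sub (summable_term hfrU y)]
        exact tsum_congr fun k => by ring
      rw [e2, Complex.sub_re]
      show m i + (S (fun k => b t k i) y).re - _ = _
      ring
    rw [e1]
    have hsd : Summable fun k => b t k i - fr (fun z => U' t z i) k := (hbi t ht0 i).sub hfrU
    refine (Complex.abs_re_le_norm _).trans ((norm_S_le hsd _).trans ?_)
    refine Real.tsum_le_of_sum_le (fun _ => norm_nonneg _) fun A => ?_
    refine (Finset.sum_le_sum fun k _ => ?_).trans (hclose t ht A)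
    exact norm_le_pi_norm (b t k - vf (U' t) k) i

end Pool.Agent.Run7.h811.WS
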