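import Pool.Agent.Run7.h744.WS.HDefs
import Pool.Agent.Run7.h811.WS.InitW

/-!
Piece R3a of the project WS (rough data): from the iteration in coefficients to fields.
-/

set_option autoImplicit false

open MeasureTheory Set Filter Topology
open scoped ContDiff ENNReal

namespace Pool.Agent.Run7.h811.WS

open H459R3.NS Pool.Agent.Run7 Pool.Agent.Run7.h782.GD Pool.Agent.Run7.h782.GS
open Pool.Agent.Run7.h782.WS Pool.Agent.Run7.h744.GS Pool.Agent.Run7.h744.WS

theorem ser_herm {b : ℝ → Cf} {m : V} {t : ℝ} {i : Fin 3} (hh : Herm (b t)) (k : K3) :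
    ser b m t i (-k) = (starRingEnd ℂ) (ser b m t i k) := by
  unfold ser
  rw [map_add, map_mul, ee_neg, hh k i]
  congr 1
  by_cases hk : k = 0
  · rw [if_pos hk, if_pos (neg_eq_zero.2 hk), Complex.conj_ofReal]
  · rw [if_neg hk, if_neg (fun h => hk (neg_eq_zero.1 h)), map_zero]

theorem fr_field {b : ℝ → Cf} {m : V} {t : ℝ} {i : Fin 3} (hbi : Summable fun k => b t k i)
    (hh : Herm (b t)) (k : K3) :
    fr (fun x => (m + fld b t (x - t • m)) i) k = ser b m t i k := by
  have h1 : (fun x => (m + fld b t (x - t • m)) i) = fun x => (S (ser b m t i) x).re :=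
    funext fun x => ser_eq hbi x
  rw [h1]
  exact h32.GD.fr_S (ser_summable hbi) (ser_herm hh) k

/-- **Piece R3a.** -/
theorem initH (hIter : StmIterH) (hTg : StmTg) (hP2 : StmPhys2) : StmInitH := by
  intro ν hν c hcD U P hU hmean δ hδ
  have hpi := Real.pi_pos
  set m : V := fun i => ∫ y in cube, U 0 y i with hm'
  have hm0 : ∀ i, c 0 i = ((m i : ℝ) : ℂ) := fun i => (hmean i).symm
  -- the shifted target
  set U' : ℝ → V → V := fun t x => -m + U t (x - t • (-m)) with hU'
  have hUs : ∀ T, IsSol ν T U' (fun t x => P t (x - t • (-m))) := fun T =>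
    h32.GD.galilei (hU T) (-m)
  have hU0c : ∀ i, Continuous fun x => U 0 x i := fun i =>
    ((hU 1).sp (t := 0) ⟨le_rfl, one_pos⟩ i).smooth.continuous
  have hmean' : ∀ i, ∫ x in cube, U' 0 x i = 0 := by
    intro i
    have e : ∀ x, U' 0 x i = -(m i) + U 0 x i := by
      intro x
      simp only [hU', zero_smul, sub_zero, Pi.add_apply, Pi.neg_apply]
    simp_rw [e]
    have := cube_finite
    rw [integral_add (integrable_const _) (integrableOn_cube (hU0c i))]
    simp only [integral_const, measureReal_restrict_apply_univ, smul_eq_mul]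
    rw [Measure.real, volume_cube]
    simp [hm']
  have hTgU := hTg ν hν U' _ hUs hmean'
  -- the datum without mean
  set c' : Cf := fun k => if k = 0 then 0 else c k with hc'
  have hc'k : ∀ k, k ≠ 0 → c' k = c k := fun k hk => by simp only [hc']; rw [if_neg hk]
  have hc'0 : c' 0 = 0 := by simp [hc']
  have hc'le : ∀ k, ‖c' k‖ ≤ ‖c k‖ := by
    intro k
    by_cases hk : k = 0
    · subst hk
      rw [hc'0, norm_zero]
      exact norm_nonneg _
    · rw [hc'k k hk]
  have hcD' : Dat c' := by
    refine ⟨?_, ?_, ?_⟩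
    · intro k i
      by_cases hk : k = 0
      · subst hk
        rw [neg_zero, hc'0]
        simp
      · rw [hc'k _ (neg_ne_zero.2 hk), hc'k k hk]
        exact hcD.herm k i
    · intro k
      by_cases hk : k = 0
      · subst hk
        rw [hc'0]
        exact kd_zero_right 0
      · rw [hc'k k hk]
        exact hcD.dv k
    · refine Summable.of_nonneg_of_le (fun k => by positivity) (fun k => ?_) hcD.sm
      exact div_le_div_of_nonneg_right (pow_le_pow_left₀ (norm_nonneg _) (hc'le k) 2)
        (by positivity)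
  obtain ⟨b, hb, hblim, hbd, hbes, hsq, hLq, hL2, hclose⟩ :=
    hIter ν hν _ hTgU c' hc'0 hcD' δ hδ
  obtain ⟨p, hp⟩ := hP2 ν b hb m
  -- facts for positive times
  have hhalf : ∀ t : ℝ, t / 2 + t / 2 = t := fun t => by ring
  have hbt : ∀ t, 0 < t → (Summable fun k => ‖b t k‖) ∧ Herm (b t) ∧ b t 0 = 0 := by
    intro t ht
    have H := hb (t / 2) (by positivity)
    obtain ⟨μ, hμ, C, hC⟩ := H.dec
    have h0 : (0 : ℝ) ≤ t / 2 := by positivity
    refine ⟨?_, ?_, ?_⟩
    · refine Summable.of_nonneg_of_le (fun _ => norm_nonneg _) (fun k => ?_)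
        ((h32.GD.summable_exp hμ).mul_left C)
      have := hC (t / 2) h0 k
      simpa only [hhalf] using this
    · have := H.herm (t / 2) h0
      simpa only [hhalf] using this
    · have := H.zero (t / 2) h0
      simpa only [hhalf] using this
  have hbi : ∀ t, 0 < t → ∀ i, Summable fun k => b t k i := fun t ht i =>
    Summable.of_norm (Summable.of_nonneg_of_le (fun _ => norm_nonneg _)
      (fun k => norm_le_pi_norm (b t k) i) (hbt t ht).1)
  refine ⟨fun t x => m + fld b t (x - t • m), p, hp, ?_, ?_, ?_, ?_, ?_, ?_⟩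
  · -- energy
    intro T i
    have hcont : ContinuousOn (fun z : ℝ × V => (m + fld b z.1 (z.2 - z.1 • m)) i ^ 2)
        (Ioi 0 ×ˢ univ) :=
      ((continuous_apply i).comp_continuousOn hp.smooth_u.continuousOn).pow 2
    have hfx : ∀ t, 0 < t → Continuous fun x : V => (m + fld b t (x - t • m)) i ^ 2 := by
      intro t ht
      have : (fun x => (m + fld b t (x - t • m)) i ^ 2) = fun x => (S (ser b m t i) x).re ^ 2 :=
        funext fun x => by rw [ser_eq (hbi t ht i)]
      rw [this]
      exact (Complex.continuous_re.comp (S_continuous (ser_summable (hbi t ht i)))).pow 2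
    have hA : IntegrableOn (fun z : ℝ × V => (m + fld b z.1 (z.2 - z.1 • m)) i ^ 2)
        (Ioc 0 1 ×ˢ cube) := by
      refine strip_int (D := fun t => ‖m‖ ^ 2 + ∑' k, ‖b t k‖ ^ 2)
        (hcont.mono (prod_mono (fun t ht => ht.1) (subset_univ _))) (fun z => sq_nonneg _)
        (fun t ht => integrableOn_cube (hfx t ht.1)) ?_ ?_
      · exact Integrable.add (integrableOn_const (by simp)) hL2
      · intro t ht
        obtain ⟨hs, _, hz⟩ := hbt t ht.1
        exact int_sq_le i hs hz
    have hB : IntegrableOn (fun z : ℝ × V => (m + fld b z.1 (z.2 - z.1 • m)) i ^ 2)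
        (Icc 1 T ×ˢ cube) := by
      refine ContinuousOn.integrableOn_compact (isCompact_Icc.prod isCompact_Icc) (hcont.mono ?_)
      exact prod_mono (fun t ht => lt_of_lt_of_le one_pos ht.1) (subset_univ _)
    refine (hA.union hB).mono_set ?_
    rintro ⟨t, x⟩ ⟨ht, hx⟩
    rcases le_or_gt t 1 with h | h
    · exact Or.inl ⟨⟨ht.1, h⟩, hx⟩
    · exact Or.inr ⟨⟨h.le, ht.2⟩, hx⟩
  · -- convergence of the coefficients
    intro k
    rw [tendsto_pi_nhds]
    intro i
    have hee : Tendsto (fun t : ℝ => ee k (-(t • m))) (𝓝[>] 0) (𝓝 1) := by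
      have h1 : Continuous fun t : ℝ => ee k (-(t • m)) :=
        (ee_continuous k).comp (continuous_id.smul continuous_const).neg
      have h2 := h1.tendsto 0
      rw [zero_smul, neg_zero] at h2
      have h3 : ee k 0 = 1 := by simp [ee, ph]
      rw [h3] at h2
      exact h2.mono_left nhdsWithin_le_nhds
    have h1 := (hee.mul ((tendsto_pi_nhds.1 (hblim k)) i)).const_add
      (if k = 0 then ((m i : ℝ) : ℂ) else 0)
    have h2 : (if k = 0 then ((m i : ℝ) : ℂ) else 0) + 1 * c' k i = c k i := by
      by_cases hk : k = 0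
      · subst hk
        rw [if_pos rfl, hc'0, Pi.zero_apply, mul_zero, add_zero, hm0]
      · rw [if_neg hk, hc'k k hk, zero_add, one_mul]
    rw [h2] at h1
    refine h1.congr' ?_
    filter_upwards [self_mem_nhdsWithin] with t ht
    exact (fr_field (hbi t ht i) (hbt t ht).2.1 k).symm
  · -- the polynomial bound
    obtain ⟨C, hC⟩ := hbd
    refine ⟨‖m‖ + |C|, fun t ht ht1 k => ?_⟩
    have hl : 0 ≤ len k := h782.GD.len_nonneg k
    have h1 : (1 : ℝ) ≤ (1 + len k) ^ 2 := by nlinarith
    refine (pi_norm_le_iff_of_nonneg (by positivity)).2 fun i => ?_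
    have h2 : vf (fun x => m + fld b t (x - t • m)) k i = ser b m t i k :=
      fr_field (hbi t ht i) (hbt t ht).2.1 k
    show ‖vf (fun x => m + fld b t (x - t • m)) k i‖ ≤ _
    rw [h2]
    unfold ser
    have h3 : ‖(if k = 0 then ((m i : ℝ) : ℂ) else 0)‖ ≤ ‖m‖ := by
      split_ifs
      · rw [Complex.norm_real]
        exact norm_le_pi_norm m i
      · rw [norm_zero]
        exact norm_nonneg _
    have h4 : ‖ee k (-(t • m)) * b t k i‖ ≤ |C| * (1 + len k) ^ 2 := by
      rw [norm_mul, norm_ee, one_mul]
      refine (norm_le_pi_norm (b t k) i).trans ((hC t ht ht1 k).trans ?_)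
      exact mul_le_mul_of_nonneg_right (le_abs_self C) (by positivity)
    refine (norm_add_le _ _).trans ?_
    have h5 : ‖m‖ * 1 ≤ ‖m‖ * (1 + len k) ^ 2 := mul_le_mul_of_nonneg_left h1 (norm_nonneg _)
    rw [add_mul]
    linarith
  · -- the bound in time
    set Nb : ℝ → ℝ := fun t => ∑' k, ‖b t k‖ with hNb
    have hNb0 : ∀ t, 0 ≤ Nb t := fun t => tsum_nonneg fun _ => norm_nonneg _
    refine ⟨fun t => ‖m‖ + Nb t, fun t ht x i => ?_, ?_, fun q hq => ?_⟩
    · obtain ⟨hs, _, _⟩ := hbt t ht
      show |m i + fld b t (x - t • m) i| ≤ _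
      refine (abs_add_le _ _).trans (add_le_add ?_ ?_)
      · rw [← Real.norm_eq_abs]
        exact norm_le_pi_norm m i
      · refine (Complex.abs_re_le_norm _).trans ((norm_S_le (hbi t ht i) _).trans ?_)
        exact Summable.tsum_le_tsum (fun k => norm_le_pi_norm _ i) (hbi t ht i).norm hs
    · have h1 : Tendsto (fun t : ℝ => Real.sqrt t * ‖m‖) (𝓝[>] 0) (𝓝 0) := by
        have h2 : Tendsto (fun t : ℝ => Real.sqrt t * ‖m‖) (𝓝 0) (𝓝 (Real.sqrt 0 * ‖m‖)) :=
          (Real.continuous_sqrt.tendsto 0).mul_const _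
        rw [Real.sqrt_zero, zero_mul] at h2
        exact h2.mono_left nhdsWithin_le_nhds
      have h3 := h1.add hsq
      rw [add_zero] at h3
      refine h3.congr fun t => ?_
      ring
    · have hq0 : (0 : ℝ) < q := by linarith
      have hN := hLq q hq
      have hmeas : AEStronglyMeasurable (fun t => (Real.sqrt t * (‖m‖ + Nb t)) ^ q / t)
          (volume.restrict (Ioc 0 1)) := by
        have h0 : AEStronglyMeasurable (fun t : ℝ => t) (volume.restrict (Ioc 0 1)) :=
          aestronglyMeasurable_id
        have h1 : AEStronglyMeasurable (fun t => (Real.sqrt t * ‖m‖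
            + (((Real.sqrt t * Nb t) ^ q / t) * t) ^ (1 / q)) ^ q / t)
            (volume.restrict (Ioc 0 1)) := by
          refine (AEMeasurable.div (AEStronglyMeasurable.aemeasurable ?_)
            h0.aemeasurable).aestronglyMeasurable
          have hc1 : Continuous fun y : ℝ => y ^ q :=
            continuous_id.rpow_const fun _ => Or.inr hq0.le
          have hc2 : Continuous fun y : ℝ => y ^ (1 / q) :=
            continuous_id.rpow_const fun _ => Or.inr (by positivity)
          refine hc1.comp_aestronglyMeasurable (AEStronglyMeasurable.add ?_ ?_)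
          · exact (Real.continuous_sqrt.comp_aestronglyMeasurable h0).mul_const _
          · exact hc2.comp_aestronglyMeasurable (hN.aestronglyMeasurable.mul h0)
        refine h1.congr ((ae_restrict_iff' measurableSet_Ioc).2 (Eventually.of_forall fun t ht => ?_))
        have ht0 : 0 < t := ht.1
        show (Real.sqrt t * ‖m‖ + (((Real.sqrt t * Nb t) ^ q / t) * t) ^ (1 / q)) ^ q / t
          = (Real.sqrt t * (‖m‖ + Nb t)) ^ q / t
        rw [div_mul_cancel₀ _ ht0.ne', ← Real.rpow_mul (mul_nonneg (Real.sqrt_nonneg _) (hNb0 t)),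
          mul_one_div, div_self hq0.ne', Real.rpow_one, ← mul_add]
      have hpow : IntegrableOn (fun t : ℝ => t ^ (q / 2 - 1)) (Ioc 0 1) := by
        have := intervalIntegral.intervalIntegrable_rpow' (a := 0) (b := 1) (r := q / 2 - 1)
          (by linarith)
        rwa [intervalIntegrable_iff_integrableOn_Ioc_of_le zero_le_one] at this
      have hdom : IntegrableOn (fun t => 2 ^ q * ‖m‖ ^ q * t ^ (q / 2 - 1)
          + 2 ^ q * ((Real.sqrt t * Nb t) ^ q / t)) (Ioc 0 1) :=
        Integrable.add (hpow.const_mul _) (hN.const_mul _)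
      refine Integrable.mono' hdom hmeas
        ((ae_restrict_iff' measurableSet_Ioc).2 (Eventually.of_forall fun t ht => ?_))
      have ht0 : 0 < t := ht.1
      have hst : 0 ≤ Real.sqrt t := Real.sqrt_nonneg _
      have h0 : 0 ≤ Real.sqrt t * (‖m‖ + Nb t) :=
        mul_nonneg hst (add_nonneg (norm_nonneg _) (hNb0 t))
      rw [Real.norm_of_nonneg (div_nonneg (Real.rpow_nonneg h0 _) ht0.le)]
      have hsq' : Real.sqrt t ^ q / t = t ^ (q / 2 - 1) := by
        rw [Real.rpow_sub ht0, Real.rpow_one, Real.sqrt_eq_rpow, ← Real.rpow_mul ht0.le]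
        congr 2
        ring
      rcases le_total ‖m‖ (Nb t) with h | h
      · calc (Real.sqrt t * (‖m‖ + Nb t)) ^ q / t ≤ (2 * (Real.sqrt t * Nb t)) ^ q / t := by
              refine div_le_div_of_nonneg_right (Real.rpow_le_rpow h0 ?_ hq0.le) ht0.le
              nlinarith
          _ = 2 ^ q * ((Real.sqrt t * Nb t) ^ q / t) := by
              rw [Real.mul_rpow (by norm_num) (mul_nonneg hst (hNb0 t)), mul_div_assoc]
          _ ≤ _ := le_add_of_nonneg_left (by positivity)
      · calc (Real.sqrt t * (‖m‖ + Nb t)) ^ q / t ≤ (2 * (‖m‖ * Real.sqrt t)) ^ q / t := by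
              refine div_le_div_of_nonneg_right (Real.rpow_le_rpow h0 ?_ hq0.le) ht0.le
              nlinarith
          _ = 2 ^ q * ‖m‖ ^ q * t ^ (q / 2 - 1) := by
              rw [Real.mul_rpow (by norm_num) (mul_nonneg (norm_nonneg _) hst),
                Real.mul_rpow (norm_nonneg _) hst, ← hsq']
              ring
          _ ≤ _ := le_add_of_nonneg_right (mul_nonneg (by positivity)
              (div_nonneg (Real.rpow_nonneg (mul_nonneg hst (hNb0 t)) _) ht0.le))
  · -- attainment of the datum in the Besov norm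
    intro hcS q hq i
    have hc'S : Summable fun k => ‖c' k‖ :=
      Summable.of_nonneg_of_le (fun _ => norm_nonneg _) hc'le hcS
    have hci : Summable fun k => c k i :=
      Summable.of_norm (Summable.of_nonneg_of_le (fun _ => norm_nonneg _)
        (fun k => norm_le_pi_norm (c k) i) hcS)
    set Cc : ℝ := ∑' k, ‖c' k‖ with hCc
    set κ : ℝ := 2 * Real.pi * (3 * ‖m‖) with hκ
    have hκ0 : 0 ≤ κ := by positivity
    have hbound : ∀ t, 0 < t →
        bes q (fun x => (m + fld b t (x - t • m)) i - (S (fun k => c k i) x).re)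
        ≤ 2 ^ (q - 1) * (besC q (fun k => ‖b t k - c' k‖)
          + ENNReal.ofReal (1 * (κ * t * Cc) ^ q)) := by
      intro t ht
      obtain ⟨hs, hh, hz⟩ := hbt t ht
      set e : K3 → ℂ := fun k => ee k (-(t • m)) with he
      have hd1 := ser_summable (m := m) (hbi t ht i)
      have hcont : Continuous fun x => (S (ser b m t i) x).re :=
        Complex.continuous_re.comp (S_continuous hd1)
      have hcont2 : Continuous fun x => (S (fun k => c k i) x).re :=
        Complex.continuous_re.comp (S_continuous hci)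
      have hfr : ∀ k, ‖fr (fun x => (m + fld b t (x - t • m)) i - (S (fun k => c k i) x).re) k‖
          ≤ ‖b t k - c' k‖ + ‖e k - 1‖ * ‖c' k‖ := by
        intro k
        have e2 : (fun x => (m + fld b t (x - t • m)) i - (S (fun k => c k i) x).re)
            = fun x => (S (ser b m t i) x).re - (S (fun k => c k i) x).re := by
          funext x
          rw [ser_eq (hbi t ht i)]
        rw [e2, h32.GD.fr_sub hcont hcont2, h32.GD.fr_S hd1 (ser_herm hh),
          h32.GD.fr_S hci (fun k => hcD.herm k i)]
        by_cases hk : k = 0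
        · subst hk
          simp only [ser, if_true, hz, Pi.zero_apply, mul_zero, add_zero, hm0, sub_self, norm_zero]
          positivity
        · have e3 : ser b m t i k - c k i
              = e k * (b t k i - c' k i) + (e k - 1) * c' k i := by
            simp only [ser, if_neg hk, hc'k k hk]
            show 0 + e k * b t k i - c k i = _
            ring
          rw [e3]
          refine (norm_add_le _ _).trans (add_le_add ?_ ?_)
          · rw [norm_mul, he, norm_ee, one_mul]
            exact norm_le_pi_norm (b t k - c' k) i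
          · rw [norm_mul]
            exact mul_le_mul_of_nonneg_left (norm_le_pi_norm (c' k) i) (norm_nonneg _)
      have he1 : ∀ k, ‖e k - 1‖ ≤ κ * t * len k := by
        intro k
        refine (norm_ee_sub_one k _).trans ?_
        have h6 : ph k (-(t • m)) = -(t * ph k m) := by
          rw [← neg_smul, ph_smul]
          ring
        rw [h6, abs_neg, abs_mul, abs_of_pos ht]
        have h7 := abs_ph_le k m
        calc 2 * Real.pi * (t * |ph k m|) ≤ 2 * Real.pi * (t * (3 * len k * ‖m‖)) := by
              gcongr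
          _ = κ * t * len k := by rw [hκ]; ring
      have he2 : ∀ k, ‖e k - 1‖ ≤ 2 := by
        intro k
        refine (norm_sub_le _ _).trans ?_
        rw [he, norm_ee, norm_one]
        norm_num
      have hs1 : Summable fun k => ‖b t k - c' k‖ :=
        Summable.of_nonneg_of_le (fun _ => norm_nonneg _) (fun k => norm_sub_le _ _) (hs.add hc'S)
      have hs2 : Summable fun k => ‖e k - 1‖ * ‖c' k‖ :=
        Summable.of_nonneg_of_le (fun _ => by positivity)
          (fun k => mul_le_mul_of_nonneg_right (he2 k) (norm_nonneg _)) (hc'S.mul_left 2)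
      have hn2 : ∀ k, 0 ≤ ‖e k - 1‖ * ‖c' k‖ := fun k => by positivity
      refine (bes_le_besC (by linarith) (hs1.add hs2) hfr).trans ?_
      refine (besC_add_le (by linarith) (fun k => norm_nonneg _) hn2).trans ?_
      refine mul_le_mul' le_rfl (add_le_add le_rfl ?_)
      refine (bes_one q hq _ hn2 (by rw [hc'0, norm_zero]; ring) hs2).trans ?_
      refine ENNReal.ofReal_le_ofReal ?_
      rw [one_mul, one_mul]
      have h8 : ∀ k, ‖e k - 1‖ * ‖c' k‖ / len k ≤ κ * t * ‖c' k‖ := by
        intro k
        by_cases hk : k = 0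
        · subst hk
          rw [hc'0]
          simp
        · have hl := h782.GD.len_pos hk
          rw [div_le_iff₀ hl]
          calc ‖e k - 1‖ * ‖c' k‖ ≤ (κ * t * len k) * ‖c' k‖ :=
                mul_le_mul_of_nonneg_right (he1 k) (norm_nonneg _)
            _ = _ := by ring
      have h9 : Summable fun k => ‖e k - 1‖ * ‖c' k‖ / len k :=
        Summable.of_nonneg_of_le (fun k => div_nonneg (hn2 k) (h782.GD.len_nonneg k)) h8
          (hc'S.mul_left _)
      refine Real.rpow_le_rpow (tsum_nonneg fun k =>
        div_nonneg (hn2 k) (h782.GD.len_nonneg k)) ?_ (by linarith)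
      refine (Summable.tsum_le_tsum h8 h9 (hc'S.mul_left _)).trans (le_of_eq ?_)
      rw [tsum_mul_left]
    have hlim2 : Tendsto (fun t : ℝ => ENNReal.ofReal (1 * (κ * t * Cc) ^ q)) (𝓝[>] 0) (𝓝 0) := by
      have h1 : Tendsto (fun t : ℝ => 1 * (κ * t * Cc) ^ q) (𝓝 0) (𝓝 (1 * (κ * 0 * Cc) ^ q)) := by
        refine Tendsto.const_mul _ ?_
        refine Tendsto.rpow_const ?_ (Or.inr (by linarith))
        exact ((tendsto_id.const_mul κ).mul_const Cc)
      have h2 : 1 * (κ * 0 * Cc) ^ q = 0 := by
        rw [mul_zero, zero_mul, Real.zero_rpow (by linarith), mul_zero]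
      rw [h2] at h1
      have h3 := ENNReal.tendsto_ofReal (h1.mono_left (nhdsWithin_le_nhds (s := Ioi (0 : ℝ))))
      rwa [ENNReal.ofReal_zero] at h3
    have hlim : Tendsto (fun t : ℝ => (2 : ℝ≥0∞) ^ (q - 1) * (besC q (fun k => ‖b t k - c' k‖)
        + ENNReal.ofReal (1 * (κ * t * Cc) ^ q))) (𝓝[>] 0) (𝓝 0) := by
      have h1 := (hbes hc'S q hq).add hlim2
      rw [add_zero] at h1
      have h2 := ENNReal.Tendsto.const_mul (a := (2 : ℝ≥0∞) ^ (q - 1)) h1
        (Or.inr (ENNReal.rpow_ne_top_of_nonneg (by linarith) (by norm_num)))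
      rwa [mul_zero] at h2
    refine tendsto_of_tendsto_of_tendsto_of_le_of_le' tendsto_const_nhds hlim
      (Eventually.of_forall fun _ => zero_le) ?_
    filter_upwards [self_mem_nhdsWithin] with t ht
    exact hbound t ht
  · -- closeness to the target
    intro t ht x i
    have ht0 : 0 < t := hδ.trans_le ht
    obtain ⟨hs, _, _⟩ := hbt t ht0
    set y : V := x - t • m with hy
    have hspU : SP (fun z => U' t z i) :=
      (hUs (t + 1)).sp (t := t) ⟨ht0.le, by linarith⟩ i
    have hUy : U t x i = m i + U' t y i := by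
      simp only [hU', Pi.add_apply, Pi.neg_apply, hy]
      have : x - t • m - t • (-m) = x := by
        rw [smul_neg]
        abel
      rw [this]
      ring
    have hfrU : Summable (fr (fun z => U' t z i)) := (rap_fr hspU).summable
    have hUre : U' t y i = (S (fr (fun z => U' t z i)) y).re := by
      rw [S_fr hspU, Complex.ofReal_re]
    show |(m + fld b t y) i - U t x i| ≤ δ
    have e1 : (m + fld b t y) i - U t x i
        = (S (fun k => b t k i - fr (fun z => U' t z i) k) y).re := by
      rw [hUy, Pi.add_apply, hUre]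
      have e2 : S (fun k => b t k i - fr (fun z => U' t z i) k) y
          = S (fun k => b t k i) y - S (fr (fun z => U' t z i)) y := by
        unfold S
        rw [← (summable_term (hbi t ht0 i) y).tsum_sub (summable_term hfrU y)]
        exact tsum_congr fun k => by ring
      rw [e2, Complex.sub_re]
      show m i + (S (fun k => b t k i) y).re - _ = _
      ring
    rw [e1]
    have hsd : Summable fun k => b t k i - fr (fun z => U' t z i) k := (hbi t ht0 i).sub hfrU
    refine (Complex.abs_re_le_norm _).trans ((norm_S_le hsd _).trans ?_)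
    refine Real.tsum_le_of_sum_le (fun _ => norm_nonneg _) fun A => ?_
    refine (Finset.sum_le_sum fun k _ => ?_).trans (hclose t ht A)
    exact norm_le_pi_norm (b t k - vf (U' t) k) i

end Pool.Agent.Run7.h811.WS
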