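import Pool.Agent.Run7.h969.WS.GDefs
import Pool.Agent.Run7.h811.WS.InitH

/-!
Piece G of the project WS (rough data, arbitrary gauge): from the iteration in coefficients to
fields.
-/

set_option autoImplicit false

open MeasureTheory Set Filter Topology
open scoped ContDiff ENNReal

namespace Pool.Agent.Run7.h811.WS

open H459R3.NS Pool.Agent.Run7 Pool.Agent.Run7.h782.GD Pool.Agent.Run7.h782.GS
open Pool.Agent.Run7.h782.WS Pool.Agent.Run7.h744.GS Pool.Agent.Run7.h744.WS
open Pool.Agent.Run7.h969.WS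

/-! ### Gauges -/

theorem gg_line {φ : ℝ → ℝ} (h : Gauge φ) {x X : ℝ} (hx : 0 ≤ x) (hX : 0 < X)
    (hxX : x ≤ X) : φ x ≤ x / X * φ X := by
  have h1 := h.conv.2 (mem_Ici.2 hX.le) (mem_Ici.2 le_rfl)
    (div_nonneg hx hX.le) (sub_nonneg.2 ((div_le_one hX).2 hxX)) (add_sub_cancel (x / X) 1)
  simp only [smul_eq_mul, mul_zero, add_zero, h.zero] at h1
  rwa [div_mul_cancel₀ _ hX.ne'] at h1

theorem gg_mono {φ : ℝ → ℝ} (h : Gauge φ) {x y : ℝ} (hx : 0 ≤ x) (hxy : x ≤ y) :
    φ x ≤ φ y := by
  rcases hxy.eq_or_lt with rfl | hlt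
  · exact le_rfl
  · have hy : 0 < y := hx.trans_lt hlt
    refine (gg_line h hx hy hxy).trans ?_
    exact mul_le_of_le_one_left (h.nonneg y hy.le) ((div_le_one hy).2 hxy)

theorem gg_add {φ : ℝ → ℝ} (h : Gauge φ) {x y : ℝ} (hx : 0 ≤ x) (hy : 0 ≤ y) :
    φ (x + y) ≤ φ (2 * x) + φ (2 * y) := by
  rcases le_total x y with hxy | hxy
  · have h1 := gg_mono h (add_nonneg hx hy) (show x + y ≤ 2 * y by linarith)
    have h2 := h.nonneg (2 * x) (by linarith)
    linarith
  · have h1 := gg_mono h (add_nonneg hx hy) (show x + y ≤ 2 * x by linarith)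
    have h2 := h.nonneg (2 * y) (by linarith)
    linarith

theorem gg_double {φ : ℝ → ℝ} (h : Gauge φ) : Gauge fun x => φ (2 * x) where
  zero := by rw [mul_zero, h.zero]
  nonneg := fun x hx => h.nonneg _ (by linarith)
  conv := by
    refine ⟨convex_Ici 0, fun x hx y hy a b ha hb hab => ?_⟩
    have h1 := h.conv.2 (mem_Ici.2 (mul_nonneg (by norm_num) (mem_Ici.1 hx)) : 2 * x ∈ Ici (0 : ℝ))
      (mem_Ici.2 (mul_nonneg (by norm_num) (mem_Ici.1 hy)) : 2 * y ∈ Ici (0 : ℝ)) ha hb hab
    simp only [smul_eq_mul] at h1 ⊢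
    rwa [show 2 * (a * x + b * y) = a * (2 * x) + b * (2 * y) by ring]
  small := by
    have h1 : Tendsto (fun x : ℝ => 2 * x) (𝓝[>] 0) (𝓝[>] 0) := by
      refine tendsto_nhdsWithin_iff.2 ⟨?_, ?_⟩
      · have h2 : Tendsto (fun x : ℝ => 2 * x) (𝓝 0) (𝓝 (2 * 0)) := tendsto_id.const_mul 2
        rw [mul_zero] at h2
        exact h2.mono_left nhdsWithin_le_nhds
      · filter_upwards [self_mem_nhdsWithin] with x hx
        exact mem_Ioi.2 (mul_pos two_pos (mem_Ioi.1 hx))
    have h3 := (h.small.comp h1).const_mul 4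
    rw [mul_zero] at h3
    refine h3.congr' ?_
    filter_upwards [self_mem_nhdsWithin] with x hx
    have hx' : x ≠ 0 := (show (0 : ℝ) < x from hx).ne'
    show 4 * (φ (2 * x) / (2 * x) ^ 2) = φ (2 * x) / x ^ 2
    field_simp
    ring

/-- Gauges are quadratically bounded on bounded intervals. -/
theorem gg_quad {φ : ℝ → ℝ} (h : Gauge φ) (X : ℝ) :
    ∃ K : ℝ, 0 ≤ K ∧ ∀ x, 0 ≤ x → x ≤ X → φ x ≤ K * x ^ 2 := by
  have h1 := h.small.eventually (gt_mem_nhds (zero_lt_one' ℝ))
  obtain ⟨η, hη, hη2⟩ := mem_nhdsGT_iff_exists_Ioo_subset.1 h1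
  have hη0 : 0 < η := hη
  refine ⟨max 1 (φ X / η ^ 2), le_max_of_le_left zero_le_one, fun x hx hxX => ?_⟩
  rcases hx.eq_or_lt with rfl | hx0
  · rw [h.zero]
    simp
  rcases lt_or_ge x η with hlt | hge
  · have h2 : φ x / x ^ 2 < 1 := hη2 ⟨hx0, hlt⟩
    rw [div_lt_one (by positivity)] at h2
    refine h2.le.trans ?_
    exact le_mul_of_one_le_left (by positivity) (le_max_left _ _)
  · have h2 : φ x ≤ φ X := gg_mono h hx hxX
    refine h2.trans ?_
    have h3 : 0 ≤ φ X := h.nonneg X (hx.trans hxX)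
    have h4 : η ^ 2 ≤ x ^ 2 := pow_le_pow_left₀ hη0.le hge 2
    calc φ X = φ X / η ^ 2 * η ^ 2 := by field_simp
      _ ≤ φ X / η ^ 2 * x ^ 2 := mul_le_mul_of_nonneg_left h4 (by positivity)
      _ ≤ _ := mul_le_mul_of_nonneg_right (le_max_right _ _) (by positivity)

theorem gg_tendsto {φ : ℝ → ℝ} (h : Gauge φ) : Tendsto φ (𝓝[≥] 0) (𝓝 0) := by
  obtain ⟨K, hK, hq⟩ := gg_quad h 1
  have h1 : Tendsto (fun x : ℝ => K * x ^ 2) (𝓝[≥] 0) (𝓝 0) := by
    have h2 : Tendsto (fun x : ℝ => K * x ^ 2) (𝓝 0) (𝓝 (K * 0 ^ 2)) :=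
      (tendsto_id.pow 2).const_mul K
    rw [zero_pow two_ne_zero, mul_zero] at h2
    exact h2.mono_left nhdsWithin_le_nhds
  refine tendsto_of_tendsto_of_tendsto_of_le_of_le' tendsto_const_nhds h1 ?_ ?_
  · filter_upwards [self_mem_nhdsWithin] with x hx
    exact h.nonneg x hx
  · filter_upwards [self_mem_nhdsWithin,
      nhdsWithin_le_nhds (gt_mem_nhds (zero_lt_one' ℝ))] with x hx hx1
    exact hq x hx hx1.le

theorem gg_cont {φ : ℝ → ℝ} (h : Gauge φ) : ContinuousOn φ (Ici 0) := by
  intro x hx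
  rcases (show (0 : ℝ) ≤ x from hx).eq_or_lt with rfl | hx0
  · show Tendsto φ (𝓝[≥] 0) (𝓝 (φ 0))
    rw [h.zero]
    exact gg_tendsto h
  · have h1 := h.conv.continuousOn_interior
    rw [interior_Ici] at h1
    exact (h1.continuousAt (Ioi_mem_nhds hx0)).continuousWithinAt

/-! ### The norm of coefficients -/

theorem heat_sum_cont {c : K3 → ℝ} (hc : ∀ k, 0 ≤ c k) (hs : Summable c) :
    ContinuousOn (fun s : ℝ => Real.sqrt s * ∑' k, ht s k * c k) (Ici 0) := by
  refine Real.continuous_sqrt.continuousOn.mul ?_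
  refine continuousOn_tsum (fun k => ((ht_cont k).mul continuous_const).continuousOn) hs ?_
  intro k s hs'
  rw [Real.norm_of_nonneg (mul_nonneg (ht_pos s k).le (hc k))]
  exact mul_le_of_le_one_left (hc k) (h32.GD.hm_le_one hs' k)

theorem heat_sum_nonneg {c : K3 → ℝ} (hc : ∀ k, 0 ≤ c k) (s : ℝ) :
    0 ≤ Real.sqrt s * ∑' k, ht s k * c k :=
  mul_nonneg (Real.sqrt_nonneg _) (tsum_nonneg fun k => mul_nonneg (ht_pos s k).le (hc k))

theorem gauge_heat_cont {φ : ℝ → ℝ} (h : Gauge φ) {c : K3 → ℝ} (hc : ∀ k, 0 ≤ c k)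
    (hs : Summable c) :
    ContinuousOn (fun s : ℝ => φ (Real.sqrt s * ∑' k, ht s k * c k)) (Ici 0) :=
  (gg_cont h).comp (heat_sum_cont hc hs) fun s _ => heat_sum_nonneg hc s

theorem besGC_aemeas {φ : ℝ → ℝ} (h : Gauge φ) {c : K3 → ℝ} (hc : ∀ k, 0 ≤ c k)
    (hs : Summable c) : AEMeasurable (fun s : ℝ =>
      ENNReal.ofReal (φ (Real.sqrt s * ∑' k, ht s k * c k)) / ENNReal.ofReal s)
      (volume.restrict (Ioi 0)) := by
  refine AEMeasurable.div ?_ ENNReal.measurable_ofReal.aemeasurable
  refine ENNReal.measurable_ofReal.comp_aemeasurable ?_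
  exact (((gauge_heat_cont h hc hs).mono Ioi_subset_Ici_self).aestronglyMeasurable
    measurableSet_Ioi).aemeasurable

theorem besGC_le {φ : ℝ → ℝ} (h : Gauge φ) {c : K3 → ℝ} (hc : ∀ k, 0 ≤ c k) (h0 : c 0 = 0)
    (hs : Summable c) : besGC φ c ≤ ENNReal.ofReal (φ (∑' k, c k / len k)) := by
  have hX : Summable fun k => c k / len k := by
    refine Summable.of_nonneg_of_le (fun k => div_nonneg (hc k) (h782.GD.len_nonneg k))
      (fun k => ?_) hs
    by_cases hk : k = 0
    · subst hk
      simp [h0]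
    · exact div_le_self (hc k) (h782.GD.one_le_len hk)
  set X : ℝ := ∑' k, c k / len k with hXd
  have hX0 : 0 ≤ X := tsum_nonneg fun k => div_nonneg (hc k) (h782.GD.len_nonneg k)
  have eX : ENNReal.ofReal X = ∑' k, ENNReal.ofReal (c k / len k) :=
    ENNReal.ofReal_tsum_of_nonneg (fun k => div_nonneg (hc k) (h782.GD.len_nonneg k)) hX
  set F : ℝ → ℝ≥0∞ := fun s => ∑' k, ENNReal.ofReal (Real.sqrt s * (ht s k * c k)) with hF
  have hsum : ∀ s : ℝ, 0 < s → Summable fun k => ht s k * c k := fun s hs' =>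
    Summable.of_nonneg_of_le (fun k => mul_nonneg (ht_pos s k).le (hc k))
      (fun k => mul_le_of_le_one_left (hc k) (h32.GD.hm_le_one hs'.le k)) hs
  have eF : ∀ s : ℝ, 0 < s → ENNReal.ofReal (Real.sqrt s * ∑' k, ht s k * c k) = F s := by
    intro s hs'
    rw [← tsum_mul_left, ENNReal.ofReal_tsum_of_nonneg
      (fun k => mul_nonneg (Real.sqrt_nonneg _) (mul_nonneg (ht_pos s k).le (hc k)))
      ((hsum s hs').mul_left _)]
  have hFX : ∀ s : ℝ, 0 < s → Real.sqrt s * ∑' k, ht s k * c k ≤ X := by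
    intro s hs'
    rw [← tsum_mul_left]
    refine Summable.tsum_le_tsum (fun k => ?_) ((hsum s hs').mul_left _) hX
    by_cases hk : k = 0
    · subst hk
      simp [h0]
    have hl := h782.GD.len_pos hk
    rw [le_div_iff₀ hl]
    have := mul_le_mul_of_nonneg_right (sqrt_len_ht_le hs' k) (hc k)
    linarith
  have hFm : ∀ k, Measurable fun s : ℝ => ENNReal.ofReal (Real.sqrt s * (ht s k * c k)) := by
    intro k
    exact ENNReal.measurable_ofReal.comp
      ((Real.continuous_sqrt.mul ((ht_cont k).mul continuous_const)).measurable)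
  have step : ∫⁻ s in Ioi (0 : ℝ), F s / ENNReal.ofReal s ≤ ENNReal.ofReal X := by
    have e1 : ∀ s : ℝ, F s / ENNReal.ofReal s
        = ∑' k, ENNReal.ofReal (Real.sqrt s * (ht s k * c k)) / ENNReal.ofReal s := by
      intro s
      rw [hF, div_eq_mul_inv, ← ENNReal.tsum_mul_right]
      exact tsum_congr fun k => (div_eq_mul_inv _ _).symm
    simp_rw [e1]
    have hm : ∀ k, AEMeasurable (fun s : ℝ =>
        ENNReal.ofReal (Real.sqrt s * (ht s k * c k)) / ENNReal.ofReal s)
        (volume.restrict (Ioi 0)) := fun k =>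
      ((hFm k).div ENNReal.measurable_ofReal).aemeasurable
    rw [lintegral_tsum hm, eX]
    refine ENNReal.tsum_le_tsum fun k => ?_
    by_cases hk : k = 0
    · subst hk
      simp [h0]
    · exact lintegral_mode (hc k) hk
  rcases hX0.eq_or_lt with hX1 | hX1
  · have h2 : ∀ s ∈ Ioi (0 : ℝ), ENNReal.ofReal (φ (Real.sqrt s * ∑' k, ht s k * c k))
        / ENNReal.ofReal s = 0 := by
      intro s hs'
      have h3 : Real.sqrt s * ∑' k, ht s k * c k = 0 :=
        le_antisymm ((hFX s hs').trans hX1.symm.le) (heat_sum_nonneg hc s)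
      rw [h3, h.zero, ENNReal.ofReal_zero, ENNReal.zero_div]
    unfold besGC
    rw [setLIntegral_congr_fun measurableSet_Ioi h2]
    simp
  · have h2 : ∀ s ∈ Ioi (0 : ℝ), ENNReal.ofReal (φ (Real.sqrt s * ∑' k, ht s k * c k))
        / ENNReal.ofReal s ≤ ENNReal.ofReal (φ X / X) * (F s / ENNReal.ofReal s) := by
      intro s hs'
      rw [← mul_div_assoc, ← eF s hs', ← ENNReal.ofReal_mul
        (div_nonneg (h.nonneg X hX0) hX0)]
      refine ENNReal.div_le_div_right (ENNReal.ofReal_le_ofReal ?_) _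
      refine (gg_line h (heat_sum_nonneg hc s) hX1 (hFX s hs')).trans (le_of_eq ?_)
      ring
    unfold besGC
    refine (setLIntegral_mono' measurableSet_Ioi h2).trans ?_
    rw [lintegral_const_mul' _ _ ENNReal.ofReal_ne_top]
    refine (mul_le_mul' le_rfl step).trans (le_of_eq ?_)
    rw [← ENNReal.ofReal_mul (div_nonneg (h.nonneg X hX0) hX0), div_mul_cancel₀ _ hX1.ne']

/-- The gauge norm of a function by the sums of two families. -/
theorem besG_le {φ : ℝ → ℝ} (h : Gauge φ) {f : V → ℝ} {a c : K3 → ℝ} (ha0 : ∀ k, 0 ≤ a k)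
    (hc0 : ∀ k, 0 ≤ c k) (ha : Summable a) (hc : Summable c)
    (hf : ∀ k, ‖fr f k‖ ≤ a k + c k) :
    besG φ f ≤ besGC (fun x => φ (2 * x)) a + besGC (fun x => φ (2 * x)) c := by
  have hfs : Summable fun k => ‖fr f k‖ :=
    Summable.of_nonneg_of_le (fun _ => norm_nonneg _) hf (ha.add hc)
  have hsum : ∀ (d : K3 → ℝ), (∀ k, 0 ≤ d k) → Summable d → ∀ s : ℝ, 0 ≤ s →
      Summable fun k => ht s k * d k := fun d hd0 hd s hs' =>
    Summable.of_nonneg_of_le (fun k => mul_nonneg (ht_pos s k).le (hd0 k))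
      (fun k => mul_le_of_le_one_left (hd0 k) (h32.GD.hm_le_one hs' k)) hd
  unfold besG besGC
  rw [← lintegral_add_left' (besGC_aemeas (gg_double h) ha0 ha)]
  refine setLIntegral_mono' measurableSet_Ioi fun s hs' => ?_
  have hs0 : (0 : ℝ) < s := hs'
  rw [← ENNReal.add_div]
  refine ENNReal.div_le_div_right (iSup_le fun x => ?_) _
  rw [← ENNReal.ofReal_add (h.nonneg _ (mul_nonneg zero_le_two (heat_sum_nonneg ha0 s)))
    (h.nonneg _ (mul_nonneg zero_le_two (heat_sum_nonneg hc0 s)))]
  refine ENNReal.ofReal_le_ofReal ?_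
  have h1 : |heat s f x| ≤ (∑' k, ht s k * a k) + ∑' k, ht s k * c k := by
    refine (h32.GD.heat_bd hfs hs0.le x).trans ?_
    rw [← (hsum a ha0 ha s hs0.le).tsum_add (hsum c hc0 hc s hs0.le)]
    refine Summable.tsum_le_tsum (fun k => ?_) ?_
      ((hsum a ha0 ha s hs0.le).add (hsum c hc0 hc s hs0.le))
    · rw [← mul_add]
      exact mul_le_mul_of_nonneg_left (hf k) (ht_pos s k).le
    · exact hsum _ (fun k => norm_nonneg _) hfs s hs0.le
  have h2 := gg_mono h (mul_nonneg (Real.sqrt_nonneg s) (abs_nonneg (heat s f x)))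
    (mul_le_mul_of_nonneg_left h1 (Real.sqrt_nonneg s))
  refine h2.trans ?_
  rw [mul_add]
  exact gg_add h (heat_sum_nonneg ha0 s) (heat_sum_nonneg hc0 s)

/-- The sum norm is continuous for positive times. -/
theorem sum_norm_cont {ν : ℝ} {b : ℝ → Cf} (hb : ∀ τ : ℝ, 0 < τ → CSol ν (fun t => b (t + τ))) :
    ContinuousOn (fun t => ∑' k, ‖b t k‖) (Ioi 0) := by
  intro t₀ ht₀
  have ht : 0 < t₀ / 2 := half_pos ht₀
  have H := hb (t₀ / 2) ht
  obtain ⟨μ, hμ, C, hC⟩ := H.dec
  have h1 : ContinuousOn (fun s => ∑' k, ‖b (s + t₀ / 2) k‖) (Ici 0) := by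
    refine continuousOn_tsum (u := fun k => C * Real.exp (-(μ * len k))) (fun k => ?_)
      ((h32.GD.summable_exp hμ).mul_left C) ?_
    · exact ContinuousOn.norm fun s hs => (H.der s hs k).continuousWithinAt
    · intro k s hs
      rw [norm_norm]
      exact hC s hs k
  have h2 : ContinuousOn (fun t => ∑' k, ‖b t k‖) (Ici (t₀ / 2)) := by
    have h3 : ContinuousOn (fun t : ℝ => t - t₀ / 2) (Ici (t₀ / 2)) :=
      (continuous_id.sub continuous_const).continuousOn
    have h4 := h1.comp h3 (fun t ht' => mem_Ici.2 (sub_nonneg.2 (mem_Ici.1 ht')))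
    refine h4.congr fun t _ => ?_
    show _ = ∑' k, ‖b (t - t₀ / 2 + t₀ / 2) k‖
    rw [sub_add_cancel]
  exact (h2.continuousAt (Ici_mem_nhds (half_lt_self ht₀))).continuousWithinAt

/-- **Piece G.** -/
theorem initG (hIter : StmIterG) (hTg : StmTg) (hP2 : StmPhys2) : StmInitG := by
  intro ν hν c hcD U P hU hmean φ hφ δ hδ
  have hpi := Real.pi_pos
  set m : V := fun i => ∫ y in cube, U 0 y i with hm'
  have hm0 : ∀ i, c 0 i = ((m i : ℝ) : ℂ) := fun i => (hmean i).symm
  -- the shifted target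
  set U' : ℝ → V → V := fun t x => -m + U t (x - t • (-m)) with hU'
  have hUs : ∀ T, IsSol ν T U' (fun t x => P t (x - t • (-m))) := fun T =>
    h32.GD.galilei (hU T) (-m)
  have hU0c : ∀ i, Continuous fun x => U 0 x i := fun i =>
    ((hU 1).sp (t := 0) ⟨le_rfl, one_pos⟩ i).smooth.continuous
  have hmean' : ∀ i, ∫ x in cube, U' 0 x i = 0 := by
    intro i
    have e : ∀ x, U' 0 x i = -(m i) + U 0 x i := by
      intro x
      simp only [hU', zero_smul, sub_zero, Pi.add_apply, Pi.neg_apply]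
    simp_rw [e]
    have := cube_finite
    rw [integral_add (integrable_const _) (integrableOn_cube (hU0c i))]
    simp only [integral_const, measureReal_restrict_apply_univ, smul_eq_mul]
    rw [Measure.real, volume_cube]
    simp [hm']
  have hTgU := hTg ν hν U' _ hUs hmean'
  -- the datum without mean
  set c' : Cf := fun k => if k = 0 then 0 else c k with hc'
  have hc'k : ∀ k, k ≠ 0 → c' k = c k := fun k hk => by simp only [hc']; rw [if_neg hk]
  have hc'0 : c' 0 = 0 := by simp [hc']
  have hc'le : ∀ k, ‖c' k‖ ≤ ‖c k‖ := by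
    intro k
    by_cases hk : k = 0
    · subst hk
      rw [hc'0, norm_zero]
      exact norm_nonneg _
    · rw [hc'k k hk]
  have hcD' : Dat c' := by
    refine ⟨?_, ?_, ?_⟩
    · intro k i
      by_cases hk : k = 0
      · subst hk
        rw [neg_zero, hc'0]
        simp
      · rw [hc'k _ (neg_ne_zero.2 hk), hc'k k hk]
        exact hcD.herm k i
    · intro k
      by_cases hk : k = 0
      · subst hk
        rw [hc'0]
        exact kd_zero_right 0
      · rw [hc'k k hk]
        exact hcD.dv k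
    · refine Summable.of_nonneg_of_le (fun k => by positivity) (fun k => ?_) hcD.sm
      exact div_le_div_of_nonneg_right (pow_le_pow_left₀ (norm_nonneg _) (hc'le k) 2)
        (by positivity)
  obtain ⟨b, hb, hblim, hbd, hbes, hsq, hLq, hL2, hclose⟩ :=
    hIter ν hν _ hTgU c' hc'0 hcD' (fun x => φ (2 * x)) (gg_double hφ) δ hδ
  obtain ⟨p, hp⟩ := hP2 ν b hb m
  -- facts for positive times
  have hhalf : ∀ t : ℝ, t / 2 + t / 2 = t := fun t => by ring
  have hbt : ∀ t, 0 < t → (Summable fun k => ‖b t k‖) ∧ Herm (b t) ∧ b t 0 = 0 := by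
    intro t ht
    have H := hb (t / 2) (by positivity)
    obtain ⟨μ, hμ, C, hC⟩ := H.dec
    have h0 : (0 : ℝ) ≤ t / 2 := by positivity
    refine ⟨?_, ?_, ?_⟩
    · refine Summable.of_nonneg_of_le (fun _ => norm_nonneg _) (fun k => ?_)
        ((h32.GD.summable_exp hμ).mul_left C)
      have := hC (t / 2) h0 k
      simpa only [hhalf] using this
    · have := H.herm (t / 2) h0
      simpa only [hhalf] using this
    · have := H.zero (t / 2) h0
      simpa only [hhalf] using this
  have hbi : ∀ t, 0 < t → ∀ i, Summable fun k => b t k i := fun t ht i =>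
    Summable.of_norm (Summable.of_nonneg_of_le (fun _ => norm_nonneg _)
      (fun k => norm_le_pi_norm (b t k) i) (hbt t ht).1)
  refine ⟨fun t x => m + fld b t (x - t • m), p, hp, ?_, ?_, ?_, ?_, ?_, ?_⟩
  · -- energy
    intro T i
    have hcont : ContinuousOn (fun z : ℝ × V => (m + fld b z.1 (z.2 - z.1 • m)) i ^ 2)
        (Ioi 0 ×ˢ univ) :=
      ((continuous_apply i).comp_continuousOn hp.smooth_u.continuousOn).pow 2
    have hfx : ∀ t, 0 < t → Continuous fun x : V => (m + fld b t (x - t • m)) i ^ 2 := by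
      intro t ht
      have : (fun x => (m + fld b t (x - t • m)) i ^ 2) = fun x => (S (ser b m t i) x).re ^ 2 :=
        funext fun x => by rw [ser_eq (hbi t ht i)]
      rw [this]
      exact (Complex.continuous_re.comp (S_continuous (ser_summable (hbi t ht i)))).pow 2
    have hA : IntegrableOn (fun z : ℝ × V => (m + fld b z.1 (z.2 - z.1 • m)) i ^ 2)
        (Ioc 0 1 ×ˢ cube) := by
      refine strip_int (D := fun t => ‖m‖ ^ 2 + ∑' k, ‖b t k‖ ^ 2)
        (hcont.mono (prod_mono (fun t ht => ht.1) (subset_univ _))) (fun z => sq_nonneg _)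
        (fun t ht => integrableOn_cube (hfx t ht.1)) ?_ ?_
      · exact Integrable.add (integrableOn_const (by simp)) hL2
      · intro t ht
        obtain ⟨hs, _, hz⟩ := hbt t ht.1
        exact int_sq_le i hs hz
    have hB : IntegrableOn (fun z : ℝ × V => (m + fld b z.1 (z.2 - z.1 • m)) i ^ 2)
        (Icc 1 T ×ˢ cube) := by
      refine ContinuousOn.integrableOn_compact (isCompact_Icc.prod isCompact_Icc) (hcont.mono ?_)
      exact prod_mono (fun t ht => lt_of_lt_of_le one_pos ht.1) (subset_univ _)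
    refine (hA.union hB).mono_set ?_
    rintro ⟨t, x⟩ ⟨ht, hx⟩
    rcases le_or_gt t 1 with h | h
    · exact Or.inl ⟨⟨ht.1, h⟩, hx⟩
    · exact Or.inr ⟨⟨h.le, ht.2⟩, hx⟩
  · -- convergence of the coefficients
    intro k
    rw [tendsto_pi_nhds]
    intro i
    have hee : Tendsto (fun t : ℝ => ee k (-(t • m))) (𝓝[>] 0) (𝓝 1) := by
      have h1 : Continuous fun t : ℝ => ee k (-(t • m)) :=
        (ee_continuous k).comp (continuous_id.smul continuous_const).neg
      have h2 := h1.tendsto 0
      rw [zero_smul, neg_zero] at h2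
      have h3 : ee k 0 = 1 := by simp [ee, ph]
      rw [h3] at h2
      exact h2.mono_left nhdsWithin_le_nhds
    have h1 := (hee.mul ((tendsto_pi_nhds.1 (hblim k)) i)).const_add
      (if k = 0 then ((m i : ℝ) : ℂ) else 0)
    have h2 : (if k = 0 then ((m i : ℝ) : ℂ) else 0) + 1 * c' k i = c k i := by
      by_cases hk : k = 0
      · subst hk
        rw [if_pos rfl, hc'0, Pi.zero_apply, mul_zero, add_zero, hm0]
      · rw [if_neg hk, hc'k k hk, zero_add, one_mul]
    rw [h2] at h1
    refine h1.congr' ?_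
    filter_upwards [self_mem_nhdsWithin] with t ht
    exact (fr_field (hbi t ht i) (hbt t ht).2.1 k).symm
  · -- the polynomial bound
    obtain ⟨C, hC⟩ := hbd
    refine ⟨‖m‖ + |C|, fun t ht ht1 k => ?_⟩
    have hl : 0 ≤ len k := h782.GD.len_nonneg k
    have h1 : (1 : ℝ) ≤ (1 + len k) ^ 2 := by nlinarith
    refine (pi_norm_le_iff_of_nonneg (by positivity)).2 fun i => ?_
    have h2 : vf (fun x => m + fld b t (x - t • m)) k i = ser b m t i k :=
      fr_field (hbi t ht i) (hbt t ht).2.1 k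
    show ‖vf (fun x => m + fld b t (x - t • m)) k i‖ ≤ _
    rw [h2]
    unfold ser
    have h3 : ‖(if k = 0 then ((m i : ℝ) : ℂ) else 0)‖ ≤ ‖m‖ := by
      split_ifs
      · rw [Complex.norm_real]
        exact norm_le_pi_norm m i
      · rw [norm_zero]
        exact norm_nonneg _
    have h4 : ‖ee k (-(t • m)) * b t k i‖ ≤ |C| * (1 + len k) ^ 2 := by
      rw [norm_mul, norm_ee, one_mul]
      refine (norm_le_pi_norm (b t k) i).trans ((hC t ht ht1 k).trans ?_)
      exact mul_le_mul_of_nonneg_right (le_abs_self C) (by positivity)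
    refine (norm_add_le _ _).trans ?_
    have h5 : ‖m‖ * 1 ≤ ‖m‖ * (1 + len k) ^ 2 := mul_le_mul_of_nonneg_left h1 (norm_nonneg _)
    rw [add_mul]
    linarith
  · -- the bound in time
    set Nb : ℝ → ℝ := fun t => ∑' k, ‖b t k‖ with hNb
    have hNb0 : ∀ t, 0 ≤ Nb t := fun t => tsum_nonneg fun _ => norm_nonneg _
    refine ⟨fun t => ‖m‖ + Nb t, fun t ht x i => ?_, ?_, ?_⟩
    · obtain ⟨hs, _, _⟩ := hbt t ht
      show |m i + fld b t (x - t • m) i| ≤ _
      refine (abs_add_le _ _).trans (add_le_add ?_ ?_)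
      · rw [← Real.norm_eq_abs]
        exact norm_le_pi_norm m i
      · refine (Complex.abs_re_le_norm _).trans ((norm_S_le (hbi t ht i) _).trans ?_)
        exact Summable.tsum_le_tsum (fun k => norm_le_pi_norm _ i) (hbi t ht i).norm hs
    · have h1 : Tendsto (fun t : ℝ => Real.sqrt t * ‖m‖) (𝓝[>] 0) (𝓝 0) := by
        have h2 : Tendsto (fun t : ℝ => Real.sqrt t * ‖m‖) (𝓝 0) (𝓝 (Real.sqrt 0 * ‖m‖)) :=
          (Real.continuous_sqrt.tendsto 0).mul_const _
        rw [Real.sqrt_zero, zero_mul] at h2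
        exact h2.mono_left nhdsWithin_le_nhds
      have h3 := h1.add hsq
      rw [add_zero] at h3
      refine h3.congr fun t => ?_
      ring
    · obtain ⟨K, hK, hq⟩ := gg_quad (gg_double hφ) ‖m‖
      have hc1 : ContinuousOn (fun t : ℝ => Real.sqrt t * (‖m‖ + Nb t)) (Ioi 0) :=
        Real.continuous_sqrt.continuousOn.mul (continuousOn_const.add (sum_norm_cont hb))
      have hc2 : ContinuousOn (fun t : ℝ => φ (Real.sqrt t * (‖m‖ + Nb t)) / t) (Ioi 0) := by
        refine ContinuousOn.div ((gg_cont hφ).comp hc1 fun t _ => ?_) continuousOn_id fun t ht => ?_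
        · exact mul_nonneg (Real.sqrt_nonneg _) (add_nonneg (norm_nonneg _) (hNb0 t))
        · exact (show (0 : ℝ) < t from ht).ne'
      have hmeas : AEStronglyMeasurable (fun t : ℝ => φ (Real.sqrt t * (‖m‖ + Nb t)) / t)
          (volume.restrict (Ioc 0 1)) :=
        (hc2.mono fun t ht => ht.1).aestronglyMeasurable measurableSet_Ioc
      have hdom : IntegrableOn (fun t => K * ‖m‖ ^ 2 + φ (2 * (Real.sqrt t * Nb t)) / t)
          (Ioc 0 1) := Integrable.add (integrableOn_const (by simp)) hLq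
      refine Integrable.mono' hdom hmeas
        ((ae_restrict_iff' measurableSet_Ioc).2 (Eventually.of_forall fun t ht => ?_))
      have ht0 : 0 < t := ht.1
      have hst : 0 ≤ Real.sqrt t := Real.sqrt_nonneg _
      have h0 : 0 ≤ Real.sqrt t * (‖m‖ + Nb t) :=
        mul_nonneg hst (add_nonneg (norm_nonneg _) (hNb0 t))
      rw [Real.norm_of_nonneg (div_nonneg (hφ.nonneg _ h0) ht0.le)]
      have h1 : φ (Real.sqrt t * (‖m‖ + Nb t))
          ≤ φ (2 * (Real.sqrt t * ‖m‖)) + φ (2 * (Real.sqrt t * Nb t)) := by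
        rw [mul_add]
        exact gg_add hφ (mul_nonneg hst (norm_nonneg _)) (mul_nonneg hst (hNb0 t))
      have h2 : φ (2 * (Real.sqrt t * ‖m‖)) ≤ K * ‖m‖ ^ 2 * t := by
        refine (hq (Real.sqrt t * ‖m‖) (mul_nonneg hst (norm_nonneg _)) ?_).trans (le_of_eq ?_)
        · exact mul_le_of_le_one_left (norm_nonneg _) (Real.sqrt_le_one.2 ht.2)
        · rw [mul_pow, Real.sq_sqrt ht0.le]
          ring
      calc φ (Real.sqrt t * (‖m‖ + Nb t)) / t
          ≤ (K * ‖m‖ ^ 2 * t + φ (2 * (Real.sqrt t * Nb t))) / t :=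
            div_le_div_of_nonneg_right (by linarith) ht0.le
        _ = _ := by
            rw [add_div, mul_div_assoc, div_self ht0.ne', mul_one]
  · -- attainment of the datum
    intro hcS i
    have hc'S : Summable fun k => ‖c' k‖ :=
      Summable.of_nonneg_of_le (fun _ => norm_nonneg _) hc'le hcS
    have hci : Summable fun k => c k i :=
      Summable.of_norm (Summable.of_nonneg_of_le (fun _ => norm_nonneg _)
        (fun k => norm_le_pi_norm (c k) i) hcS)
    set Cc : ℝ := ∑' k, ‖c' k‖ with hCc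
    have hCc0 : 0 ≤ Cc := tsum_nonneg fun _ => norm_nonneg _
    set κ : ℝ := 2 * Real.pi * (3 * ‖m‖) with hκ
    have hκ0 : 0 ≤ κ := by positivity
    have hbound : ∀ t, 0 < t →
        besG φ (fun x => (m + fld b t (x - t • m)) i - (S (fun k => c k i) x).re)
        ≤ besGC (fun x => φ (2 * x)) (fun k => ‖b t k - c' k‖)
          + ENNReal.ofReal (φ (2 * (κ * t * Cc))) := by
      intro t ht
      obtain ⟨hs, hh, hz⟩ := hbt t ht
      set e : K3 → ℂ := fun k => ee k (-(t • m)) with he
      have hd1 := ser_summable (m := m) (hbi t ht i)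
      have hcont : Continuous fun x => (S (ser b m t i) x).re :=
        Complex.continuous_re.comp (S_continuous hd1)
      have hcont2 : Continuous fun x => (S (fun k => c k i) x).re :=
        Complex.continuous_re.comp (S_continuous hci)
      have hfr : ∀ k, ‖fr (fun x => (m + fld b t (x - t • m)) i - (S (fun k => c k i) x).re) k‖
          ≤ ‖b t k - c' k‖ + ‖e k - 1‖ * ‖c' k‖ := by
        intro k
        have e2 : (fun x => (m + fld b t (x - t • m)) i - (S (fun k => c k i) x).re)
            = fun x => (S (ser b m t i) x).re - (S (fun k => c k i) x).re := by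
          funext x
          rw [ser_eq (hbi t ht i)]
        rw [e2, h32.GD.fr_sub hcont hcont2, h32.GD.fr_S hd1 (ser_herm hh),
          h32.GD.fr_S hci (fun k => hcD.herm k i)]
        by_cases hk : k = 0
        · subst hk
          simp only [ser, if_true, hz, Pi.zero_apply, mul_zero, add_zero, hm0, sub_self, norm_zero]
          positivity
        · have e3 : ser b m t i k - c k i
              = e k * (b t k i - c' k i) + (e k - 1) * c' k i := by
            simp only [ser, if_neg hk, hc'k k hk]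
            show 0 + e k * b t k i - c k i = _
            ring
          rw [e3]
          refine (norm_add_le _ _).trans (add_le_add ?_ ?_)
          · rw [norm_mul, he, norm_ee, one_mul]
            exact norm_le_pi_norm (b t k - c' k) i
          · rw [norm_mul]
            exact mul_le_mul_of_nonneg_left (norm_le_pi_norm (c' k) i) (norm_nonneg _)
      have he1 : ∀ k, ‖e k - 1‖ ≤ κ * t * len k := by
        intro k
        refine (norm_ee_sub_one k _).trans ?_
        have h6 : ph k (-(t • m)) = -(t * ph k m) := by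
          rw [← neg_smul, ph_smul]
          ring
        rw [h6, abs_neg, abs_mul, abs_of_pos ht]
        have h7 := abs_ph_le k m
        calc 2 * Real.pi * (t * |ph k m|) ≤ 2 * Real.pi * (t * (3 * len k * ‖m‖)) := by
              gcongr
          _ = κ * t * len k := by rw [hκ]; ring
      have he2 : ∀ k, ‖e k - 1‖ ≤ 2 := by
        intro k
        refine (norm_sub_le _ _).trans ?_
        rw [he, norm_ee, norm_one]
        norm_num
      have hs1 : Summable fun k => ‖b t k - c' k‖ :=
        Summable.of_nonneg_of_le (fun _ => norm_nonneg _) (fun k => norm_sub_le _ _) (hs.add hc'S)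
      have hs2 : Summable fun k => ‖e k - 1‖ * ‖c' k‖ :=
        Summable.of_nonneg_of_le (fun _ => by positivity)
          (fun k => mul_le_mul_of_nonneg_right (he2 k) (norm_nonneg _)) (hc'S.mul_left 2)
      have hn2 : ∀ k, 0 ≤ ‖e k - 1‖ * ‖c' k‖ := fun k => by positivity
      refine (besG_le hφ (fun k => norm_nonneg _) hn2 hs1 hs2 hfr).trans ?_
      refine add_le_add le_rfl ?_
      refine (besGC_le (gg_double hφ) hn2 (by rw [hc'0, norm_zero]; ring) hs2).trans ?_
      refine ENNReal.ofReal_le_ofReal ?_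
      have h8 : ∀ k, ‖e k - 1‖ * ‖c' k‖ / len k ≤ κ * t * ‖c' k‖ := by
        intro k
        by_cases hk : k = 0
        · subst hk
          rw [hc'0]
          simp
        · have hl := h782.GD.len_pos hk
          rw [div_le_iff₀ hl]
          calc ‖e k - 1‖ * ‖c' k‖ ≤ (κ * t * len k) * ‖c' k‖ :=
                mul_le_mul_of_nonneg_right (he1 k) (norm_nonneg _)
            _ = _ := by ring
      have h9 : Summable fun k => ‖e k - 1‖ * ‖c' k‖ / len k :=
        Summable.of_nonneg_of_le (fun k => div_nonneg (hn2 k) (h782.GD.len_nonneg k)) h8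
          (hc'S.mul_left _)
      have h10 : 0 ≤ ∑' k, ‖e k - 1‖ * ‖c' k‖ / len k :=
        tsum_nonneg fun k => div_nonneg (hn2 k) (h782.GD.len_nonneg k)
      refine gg_mono hφ (by linarith) ?_
      refine mul_le_mul_of_nonneg_left ?_ zero_le_two
      refine (Summable.tsum_le_tsum h8 h9 (hc'S.mul_left _)).trans (le_of_eq ?_)
      rw [tsum_mul_left]
    have hlim2 : Tendsto (fun t : ℝ => ENNReal.ofReal (φ (2 * (κ * t * Cc)))) (𝓝[>] 0) (𝓝 0) := by
      have h1 : Tendsto (fun t : ℝ => 2 * (κ * t * Cc)) (𝓝[>] 0) (𝓝[≥] 0) := by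
        refine tendsto_nhdsWithin_iff.2 ⟨?_, ?_⟩
        · have h2 : Tendsto (fun t : ℝ => 2 * (κ * t * Cc)) (𝓝 0) (𝓝 (2 * (κ * 0 * Cc))) :=
            ((tendsto_id.const_mul κ).mul_const Cc).const_mul 2
          rw [mul_zero, zero_mul, mul_zero] at h2
          exact h2.mono_left nhdsWithin_le_nhds
        · filter_upwards [self_mem_nhdsWithin] with t ht
          have ht0 : (0 : ℝ) < t := ht
          exact mul_nonneg zero_le_two (mul_nonneg (mul_nonneg hκ0 ht0.le) hCc0)
      have h3 := ENNReal.tendsto_ofReal ((gg_tendsto hφ).comp h1)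
      rw [ENNReal.ofReal_zero] at h3
      exact h3
    have hlim := (hbes hc'S).add hlim2
    rw [add_zero] at hlim
    refine tendsto_of_tendsto_of_tendsto_of_le_of_le' tendsto_const_nhds hlim
      (Eventually.of_forall fun _ => zero_le) ?_
    filter_upwards [self_mem_nhdsWithin] with t ht
    exact hbound t ht
  · -- closeness to the target
    intro t ht x i
    have ht0 : 0 < t := hδ.trans_le ht
    obtain ⟨hs, _, _⟩ := hbt t ht0
    set y : V := x - t • m with hy
    have hspU : SP (fun z => U' t z i) :=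
      (hUs (t + 1)).sp (t := t) ⟨ht0.le, by linarith⟩ i
    have hUy : U t x i = m i + U' t y i := by
      simp only [hU', Pi.add_apply, Pi.neg_apply, hy]
      have : x - t • m - t • (-m) = x := by
        rw [smul_neg]
        abel
      rw [this]
      ring
    have hfrU : Summable (fr (fun z => U' t z i)) := (rap_fr hspU).summable
    have hUre : U' t y i = (S (fr (fun z => U' t z i)) y).re := by
      rw [S_fr hspU, Complex.ofReal_re]
    show |(m + fld b t y) i - U t x i| ≤ δ
    have e1 : (m + fld b t y) i - U t x i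
        = (S (fun k => b t k i - fr (fun z => U' t z i) k) y).re := by
      rw [hUy, Pi.add_apply, hUre]
      have e2 : S (fun k => b t k i - fr (fun z => U' t z i) k) y
          = S (fun k => b t k i) y - S (fr (fun z => U' t z i)) y := by
        unfold S
        rw [← (summable_term (hbi t ht0 i) y).tsum_sub (summable_term hfrU y)]
        exact tsum_congr fun k => by ring
      rw [e2, Complex.sub_re]
      show m i + (S (fun k => b t k i) y).re - _ = _
      ring
    rw [e1]
    have hsd : Summable fun k => b t k i - fr (fun z => U' t z i) k := (hbi t ht0 i).sub hfrU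
    refine (Complex.abs_re_le_norm _).trans ((norm_S_le hsd _).trans ?_)
    refine Real.tsum_le_of_sum_le (fun _ => norm_nonneg _) fun A => ?_
    refine (Finset.sum_le_sum fun k _ => ?_).trans (hclose t ht A)
    exact norm_le_pi_norm (b t k - vf (U' t) k) i

end Pool.Agent.Run7.h811.WS
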