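import Pool.Agent.Run7.h475.WS.Wk
import Pool.Agent.Run7.h744.WS.HDefs

/-!
Piece R3c of the project WS (rough data): the weak formulation, from the limit of the pairing
(variant of helper475's W5c).
-/

set_option autoImplicit false

open MeasureTheory Set Filter Topology
open scoped ContDiff ENNReal

namespace Pool.Agent.Run7.h811.WS

open H459R3.NS Pool.Agent.Run7.h782.GS Run7.h475.WS Pool.Agent.Run7.h744.WS

/-- **Piece R3c.** -/
theorem wkH : StmWkH := by
  intro ν u p hu hL φ hφ hp hd l hlim t ht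
  show _ = _ + ∫ z in Ioc 0 t ×ˢ cube, gg ν u φ z
  -- the times
  let τ : ℕ → ℝ := fun n => t / (n + 1)
  have hτ0 : ∀ n, 0 < τ n := fun n => by positivity
  have hτt : ∀ n, τ n ≤ t := fun n => div_le_self ht.le (by
    have : (0 : ℝ) ≤ n := Nat.cast_nonneg n
    linarith)
  have hτlim : Tendsto τ atTop (𝓝[>] 0) := by
    refine tendsto_nhdsWithin_iff.2 ⟨?_, Eventually.of_forall hτ0⟩
    exact tendsto_const_nhds.div_atTop
      (tendsto_atTop_add_const_right _ _ tendsto_natCast_atTop_atTop)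
  have hmono : Monotone fun n => Ioc (τ n) t ×ˢ cube := by
    intro m n hmn
    refine prod_mono (Ioc_subset_Ioc_left ?_) le_rfl
    have : (m : ℝ) ≤ n := by exact_mod_cast hmn
    exact div_le_div_of_nonneg_left ht.le (by positivity) (by linarith)
  have hU : ⋃ n, Ioc (τ n) t ×ˢ cube = Ioc 0 t ×ˢ cube := by
    ext z
    simp only [mem_iUnion, mem_prod, mem_Ioc]
    constructor
    · rintro ⟨n, ⟨h1, h2⟩, h3⟩
      exact ⟨⟨(hτ0 n).trans h1, h2⟩, h3⟩
    · rintro ⟨⟨h1, h2⟩, h3⟩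
      have hev : ∀ᶠ n in atTop, τ n < z.1 :=
        (tendsto_nhdsWithin_iff.1 hτlim).1.eventually (gt_mem_nhds h1)
      obtain ⟨n, hn⟩ := hev.exists
      exact ⟨n, ⟨hn, h2⟩, h3⟩
  have hig := gg_int hu hφ hp hL t
  have hl1 : Tendsto (fun n => ∫ z in Ioc (τ n) t ×ˢ cube, gg ν u φ z) atTop
      (𝓝 (∫ z in Ioc 0 t ×ˢ cube, gg ν u φ z)) := by
    have h := tendsto_setIntegral_of_monotone (μ := volume) (f := gg ν u φ)
      (fun n => measurableSet_Ioc.prod cube_meas) hmono (by rw [hU]; exact hig)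
    rwa [hU] at h
  -- the limit at time zero
  have hl2 : Tendsto (fun s => ∫ x in cube, ∑ i, u s x i * φ x i) (𝓝[>] 0) (𝓝 l) := by
    refine hlim.congr' ?_
    filter_upwards [self_mem_nhdsWithin] with s hs
    rw [integral_finsetSum _ fun i _ => ((sp_u hu hs i).mul (sp_φ hφ hp i)).int]
  have hl3 : Tendsto (fun n => (∫ x in cube, ∑ i, u t x i * φ x i)
      - ∫ x in cube, ∑ i, u (τ n) x i * φ x i) atTop
      (𝓝 ((∫ x in cube, ∑ i, u t x i * φ x i) - l)) :=
    tendsto_const_nhds.sub (hl2.comp hτlim)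
  have heq : (fun n => (∫ x in cube, ∑ i, u t x i * φ x i)
      - ∫ x in cube, ∑ i, u (τ n) x i * φ x i)
      = fun n => ∫ z in Ioc (τ n) t ×ˢ cube, gg ν u φ z := by
    funext n
    exact two_times hu hφ hp hd (hτ0 n) (hτt n)
  rw [heq] at hl3
  have := tendsto_nhds_unique hl3 hl1
  linarith

end Pool.Agent.Run7.h811.WS
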