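import Pool.Agent.Run7.h782.WS.Defs
import Pool.Agent.Run7.h744.GS.P9

/-!
Piece W5b of the project WS: convergence in the Besov norm implies convergence of the pairings with
smooth periodic functions.
-/

set_option autoImplicit false

open MeasureTheory Set Filter Topology
open scoped ContDiff ENNReal

namespace Pool.Agent.Run7.h811.WS

open H459R3.NS Pool.Agent.Run7 Pool.Agent.Run7.h782.GD Pool.Agent.Run7.h782.GS
open Pool.Agent.Run7.h782.WS Pool.Agent.Run7.h744.GS

/-- The coefficients of `heat s g` are bounded by its maximum. -/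
theorem exists_coef_le {g : V → ℝ} (hg : SP g) {s : ℝ} (hs : 0 ≤ s) (k : K3) :
    ∃ x, ht s k * ‖fr g k‖ ≤ |heat s g x| := by
  set c : K3 → ℂ := fun k => (Real.exp (-(4 * Real.pi ^ 2 * h782.GD.sq k * s)) : ℂ) * fr g k with hc
  have hgs : Summable fun k => ‖fr g k‖ := ((rap_fr hg).summable).norm
  have hcs : Summable c := by
    refine Summable.of_norm (Summable.of_nonneg_of_le (fun _ => norm_nonneg _) (fun k => ?_) hgs)
    simp only [hc]
    rw [norm_mul, Complex.norm_real, Real.norm_of_nonneg (Real.exp_pos _).le]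
    exact mul_le_of_le_one_left (norm_nonneg _) (h32.GD.hm_le_one hs k)
  have hch : ∀ k, c (-k) = (starRingEnd ℂ) (c k) := by
    intro k
    simp only [hc]
    rw [map_mul, Complex.conj_ofReal, h32.GD.fr_neg, h782.GD.sq_neg]
  have hheat : ∀ x, heat s g x = (S c x).re := fun x => rfl
  have hcont : Continuous fun x => (S c x).re := Complex.continuous_re.comp (S_continuous hcs)
  obtain ⟨x₀, -, hx₀⟩ := (isCompact_Icc : IsCompact cube).exists_isMaxOn
    ⟨0, ⟨le_rfl, zero_le_one⟩⟩ hcont.abs.continuousOn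
  refine ⟨x₀, ?_⟩
  have h1 : fr (fun x => (S c x).re) k = c k := h32.GD.fr_S hcs hch k
  have h2 : ‖c k‖ = ht s k * ‖fr g k‖ := by
    simp only [hc]
    rw [norm_mul, Complex.norm_real, Real.norm_of_nonneg (Real.exp_pos _).le]
    rfl
  rw [← h2, ← h1, hheat]
  unfold fr fc
  have h3 := norm_setIntegral_le_of_norm_le_const (μ := (volume : Measure V)) (s := cube)
    (C := |(S c x₀).re|) (f := fun x => ee (-k) x * (((S c x).re : ℝ) : ℂ))
    (by rw [volume_cube]; exact ENNReal.one_lt_top) (fun x hx => by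
      rw [norm_mul, norm_ee, one_mul, Complex.norm_real, Real.norm_eq_abs]
      exact hx₀ hx)
  refine h3.trans (le_of_eq ?_)
  rw [Measure.real, volume_cube]
  simp

/-- The Fourier coefficients are controlled by the Besov norm. -/
theorem coef_bes {g : V → ℝ} (hg : SP g) (k : K3) :
    ENNReal.ofReal (Real.exp (-(8 * Real.pi ^ 2)) * ‖fr g k‖ / (1 + len k)) ^ (3 : ℝ)
      ≤ 2 * bes 3 g := by
  set a : ℝ := 1 / (1 + len k) ^ 2 with ha
  have hl0 : 0 ≤ len k := h782.GD.len_nonneg k
  have hl : 0 < 1 + len k := by linarith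
  have ha0 : 0 < a := by positivity
  have hsa : Real.sqrt a = 1 / (1 + len k) := by
    rw [ha, Real.sqrt_div zero_le_one, Real.sqrt_one, Real.sqrt_sq hl.le]
  set E : ℝ≥0∞ := ENNReal.ofReal (Real.exp (-(8 * Real.pi ^ 2)) * ‖fr g k‖ / (1 + len k)) with hE
  have hlow : ∀ s ∈ Ioc a (2 * a), E ^ (3 : ℝ) / ENNReal.ofReal (2 * a)
      ≤ (⨆ x, ENNReal.ofReal (Real.sqrt s * |heat s g x|)) ^ (3 : ℝ) / ENNReal.ofReal s := by
    intro s hs
    have hs0 : 0 < s := ha0.trans hs.1
    refine ENNReal.div_le_div (ENNReal.rpow_le_rpow ?_ (by norm_num))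
      (ENNReal.ofReal_le_ofReal hs.2)
    obtain ⟨x, hx⟩ := exists_coef_le hg hs0.le k
    refine le_trans (ENNReal.ofReal_le_ofReal ?_) (le_iSup (fun x =>
      ENNReal.ofReal (Real.sqrt s * |heat s g x|)) x)
    have h1 : Real.sqrt a ≤ Real.sqrt s := Real.sqrt_le_sqrt hs.1.le
    have h2 : Real.exp (-(8 * Real.pi ^ 2)) ≤ ht s k := by
      unfold ht
      rw [Real.exp_le_exp, neg_le_neg_iff]
      have h3 : h782.GD.sq k * s ≤ 2 := by
        have h4 : h782.GD.sq k * s ≤ len k ^ 2 * (2 * a) := by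
          rw [← h782.GD.len_sq]
          exact mul_le_mul_of_nonneg_left hs.2 (sq_nonneg _)
        refine h4.trans ?_
        rw [ha]
        rw [show len k ^ 2 * (2 * (1 / (1 + len k) ^ 2)) = 2 * (len k ^ 2 / (1 + len k) ^ 2) by ring]
        have h5 : len k ^ 2 / (1 + len k) ^ 2 ≤ 1 := by
          rw [div_le_one (by positivity)]
          nlinarith
        linarith
      have hpi : 0 ≤ 4 * Real.pi ^ 2 := by positivity
      nlinarith
    calc Real.exp (-(8 * Real.pi ^ 2)) * ‖fr g k‖ / (1 + len k)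
        = Real.sqrt a * (Real.exp (-(8 * Real.pi ^ 2)) * ‖fr g k‖) := by rw [hsa]; ring
      _ ≤ Real.sqrt s * (ht s k * ‖fr g k‖) := by
          refine mul_le_mul h1 (mul_le_mul_of_nonneg_right h2 (norm_nonneg _)) (by positivity)
            (Real.sqrt_nonneg _)
      _ ≤ _ := mul_le_mul_of_nonneg_left hx (Real.sqrt_nonneg _)
  have h1 : ∫⁻ s in Ioc a (2 * a), E ^ (3 : ℝ) / ENNReal.ofReal (2 * a) ≤ bes 3 g := by
    unfold bes
    refine (setLIntegral_mono' measurableSet_Ioc hlow).trans ?_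
    exact lintegral_mono_set (fun s hs => ha0.trans hs.1)
  rw [setLIntegral_const, Real.volume_Ioc, show 2 * a - a = a by ring] at h1
  have h2 : E ^ (3 : ℝ) = 2 * (E ^ (3 : ℝ) / ENNReal.ofReal (2 * a) * ENNReal.ofReal a) := by
    have ha1 : ENNReal.ofReal a ≠ 0 := by
      rw [Ne, ENNReal.ofReal_eq_zero, not_le]
      exact ha0
    have ha2 : ENNReal.ofReal a ≠ ⊤ := ENNReal.ofReal_ne_top
    rw [ENNReal.ofReal_mul (by norm_num : (0 : ℝ) ≤ 2), ENNReal.ofReal_ofNat]
    rw [ENNReal.div_eq_inv_mul, ENNReal.mul_inv (Or.inl two_ne_zero) (Or.inl (by norm_num))]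
    calc E ^ (3 : ℝ) = (2 * 2⁻¹) * ((ENNReal.ofReal a)⁻¹ * ENNReal.ofReal a) * E ^ (3 : ℝ) := by
          rw [ENNReal.mul_inv_cancel two_ne_zero (by norm_num), ENNReal.inv_mul_cancel ha1 ha2,
            one_mul, one_mul]
      _ = _ := by ring
  rw [h2]
  exact mul_le_mul' le_rfl h1

/-- **Piece W5b.** -/
theorem pair : StmPair := by
  intro f f₀ hf hfp hf₀ hf₀p hlim φ hφ hφp
  have hspf : ∀ t, 0 < t → SP (f t) := fun t ht => ⟨hf t ht, hfp t ht⟩
  have hsp₀ : SP f₀ := ⟨hf₀, hf₀p⟩
  have hspφ : SP φ := ⟨hφ, hφp⟩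
  have hspg : ∀ t, 0 < t → SP (fun x => f t x - f₀ x) := fun t ht =>
    ⟨(hf t ht).sub hf₀, fun j x => by
      show f t (x + Pi.single j 1) - f₀ (x + Pi.single j 1) = f t x - f₀ x
      rw [hfp t ht j x, hf₀p j x]⟩
  set κ : ℝ := Real.exp (-(8 * Real.pi ^ 2)) with hκ
  have hκ0 : 0 < κ := Real.exp_pos _
  set B : ℝ → ℝ≥0∞ := fun t => (2 * bes 3 (fun x => f t x - f₀ x)) ^ (1 / 3 : ℝ) with hB
  have hBlim : Tendsto B (𝓝[>] 0) (𝓝 0) := by
    have h1 : Tendsto (fun t => 2 * bes 3 (fun x => f t x - f₀ x)) (𝓝[>] 0) (𝓝 (2 * 0)) :=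
      ENNReal.Tendsto.const_mul hlim (Or.inr (by norm_num))
    have h2 := (ENNReal.continuous_rpow_const (y := (1 / 3 : ℝ))).tendsto (2 * 0)
    have h3 := h2.comp h1
    rw [mul_zero, ENNReal.zero_rpow_of_pos (by norm_num)] at h3
    exact h3
  have hφs : Summable fun k => (1 + len k) * ‖fr φ k‖ := by
    have h1 := ((rap_fr hspφ).summable).norm.add (Rap.len_summable (rap_fr hspφ))
    refine h1.congr fun k => ?_
    ring
  set C : ℝ := ∑' k, (1 + len k) * ‖fr φ k‖ with hC
  have hC0 : 0 ≤ C := tsum_nonneg fun k =>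
    mul_nonneg (by have := h782.GD.len_nonneg k; linarith) (norm_nonneg _)
  have hkey : ∀ t, 0 < t → B t ≠ ⊤ →
      |(∫ x in cube, f t x * φ x) - ∫ x in cube, f₀ x * φ x| ≤ (B t).toReal / κ * C := by
    intro t ht hBt
    set g : V → ℝ := fun x => f t x - f₀ x with hg
    have hsg : SP g := hspg t ht
    have hcoef : ∀ k, ‖fr g k‖ ≤ (B t).toReal / κ * (1 + len k) := by
      intro k
      have hl : 0 < 1 + len k := by have := h782.GD.len_nonneg k; linarith
      have h1 := coef_bes hsg k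
      have h2 := ENNReal.rpow_le_rpow h1 (by norm_num : (0 : ℝ) ≤ 1 / 3)
      rw [← ENNReal.rpow_mul, show (3 : ℝ) * (1 / 3) = 1 by norm_num, ENNReal.rpow_one] at h2
      have h3 : κ * ‖fr g k‖ / (1 + len k) ≤ (B t).toReal := by
        have h4 := ENNReal.toReal_mono hBt h2
        rwa [ENNReal.toReal_ofReal (by positivity)] at h4
      rw [div_le_iff₀ hl] at h3
      rw [div_mul_eq_mul_div, le_div_iff₀ hκ0]
      linarith
    have hgs : Summable (fr g) := (rap_fr hsg).summable
    have hpars := integral_S_mul hgs (g := fun x => (φ x : ℂ))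
      (Complex.continuous_ofReal.comp hφ.continuous)
    have hint : (∫ x in cube, S (fr g) x * (φ x : ℂ)) = ((∫ x in cube, g x * φ x : ℝ) : ℂ) := by
      rw [← integral_complex_ofReal]
      congr 1
      funext x
      rw [S_fr hsg]
      push_cast
      rfl
    have hφk : ∀ k, ‖∫ x in cube, ee k x * (φ x : ℂ)‖ = ‖fr φ k‖ := by
      intro k
      have h1 : fr φ (-k) = ∫ x in cube, ee k x * (φ x : ℂ) := by
        unfold fr fc
        rw [neg_neg]
      rw [← h1, h32.GD.fr_neg, RCLike.norm_conj]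
    have hnorm : ‖∫ x in cube, S (fr g) x * (φ x : ℂ)‖ ≤ (B t).toReal / κ * C := by
      rw [← hpars.tsum_eq]
      have hb : ∀ k, ‖fr g k * ∫ x in cube, ee k x * (φ x : ℂ)‖
          ≤ (B t).toReal / κ * ((1 + len k) * ‖fr φ k‖) := by
        intro k
        rw [norm_mul, hφk]
        calc ‖fr g k‖ * ‖fr φ k‖ ≤ (B t).toReal / κ * (1 + len k) * ‖fr φ k‖ :=
              mul_le_mul_of_nonneg_right (hcoef k) (norm_nonneg _)
          _ = _ := by ring
      have hs : Summable fun k => (B t).toReal / κ * ((1 + len k) * ‖fr φ k‖) := hφs.mul_left _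
      refine (tsum_of_norm_bounded hs.hasSum hb).trans (le_of_eq ?_)
      rw [tsum_mul_left]
    rw [hint, Complex.norm_real, Real.norm_eq_abs] at hnorm
    have hsub : (∫ x in cube, f t x * φ x) - ∫ x in cube, f₀ x * φ x = ∫ x in cube, g x * φ x := by
      rw [← integral_sub]
      · congr 1
        funext x
        simp only [hg]
        ring
      · exact integrableOn_cube ((hf t ht).continuous.mul hφ.continuous)
      · exact integrableOn_cube (hf₀.continuous.mul hφ.continuous)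
    rw [hsub]
    exact hnorm
  rw [tendsto_iff_norm_sub_tendsto_zero]
  have hfin : Tendsto (fun t => (B t).toReal / κ * C) (𝓝[>] 0) (𝓝 0) := by
    have h1 := (ENNReal.tendsto_toReal ENNReal.zero_ne_top).comp hBlim
    have h2 := (h1.div_const κ).mul_const C
    rw [ENNReal.toReal_zero, zero_div, zero_mul] at h2
    exact h2
  refine tendsto_of_tendsto_of_tendsto_of_le_of_le' tendsto_const_nhds hfin
    (Eventually.of_forall fun _ => norm_nonneg _) ?_
  filter_upwards [self_mem_nhdsWithin,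
    hBlim.eventually (gt_mem_nhds (ENNReal.zero_lt_top))] with t ht hBt
  rw [Real.norm_eq_abs]
  exact hkey t ht hBt.ne

end Pool.Agent.Run7.h811.WS
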