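import Pool.Agent.Run7.h782.WS.Defs
import Pool.Agent.Run7.h782.GD.Bas
import Pool.Agent.H459R3.NS.Main
import Mathlib.Analysis.Fourier.RiemannLebesgueLemma

/-!
Pieces W0 and W2a of the project WS: the antidivergence, part A.
-/

set_option autoImplicit false

open MeasureTheory Set Filter Topology
open scoped ContDiff ENNReal

namespace Pool.Agent.Run7.h811.WS

open H459R3.NS Pool.Agent.Run7 Pool.Agent.Run7.h782.GD Pool.Agent.Run7.h782.GS
open Pool.Agent.Run7.h782.WS Pool.Agent.Run7.h969.GG

/-- One coefficient of the antidivergence. -/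
noncomputable def ac (i j : Fin 3) (k : K3) (v : C3) : ℂ :=
  (v i * (k j : ℂ) + (k i : ℂ) * v j) / (2 * Real.pi * Complex.I * (h782.GD.sq k : ℂ))

theorem anti_eq (c : Cf) (i j : Fin 3) (k : K3) : anti c i j k = ac i j k (c k) := rfl

theorem ac_add (i j : Fin 3) (k : K3) (v w : C3) : ac i j k (v + w) = ac i j k v + ac i j k w := by
  unfold ac
  rw [Pi.add_apply, Pi.add_apply]
  ring

theorem ac_smul (i j : Fin 3) (k : K3) (c : ℂ) (v : C3) : ac i j k (c • v) = c * ac i j k v := by
  unfold ac
  rw [Pi.smul_apply, Pi.smul_apply, smul_eq_mul, smul_eq_mul]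
  ring

theorem ac_zero (i j : Fin 3) (k : K3) : ac i j k 0 = 0 := by simp [ac]

theorem ac_sum (i j : Fin 3) (k : K3) {ι : Type*} (s : Finset ι) (v : ι → C3) :
    ac i j k (∑ l ∈ s, v l) = ∑ l ∈ s, ac i j k (v l) := by
  classical
  induction s using Finset.induction_on with
  | empty => simp [ac_zero]
  | insert a s ha ih => rw [Finset.sum_insert ha, Finset.sum_insert ha, ac_add, ih]

theorem norm_ac_le (i j : Fin 3) (k : K3) (v : C3) : ‖ac i j k v‖ ≤ ‖v‖ / len k := by
  by_cases hk : k = 0
  · subst hk
    simp [ac]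
  · have hl := h782.GD.len_pos hk
    have hpi := Real.pi_gt_three
    unfold ac
    rw [norm_div]
    have h1 : ‖(v i * (k j : ℂ) + (k i : ℂ) * v j)‖ ≤ 2 * (len k * ‖v‖) := by
      have ha : ∀ a b : Fin 3, ‖v a * (k b : ℂ)‖ ≤ len k * ‖v‖ := by
        intro a b
        rw [norm_mul, mul_comm]
        refine mul_le_mul ?_ (norm_le_pi_norm v a) (norm_nonneg _) hl.le
        have : ((k b : ℤ) : ℂ) = (((k b : ℤ) : ℝ) : ℂ) := by push_cast; rfl
        rw [this, Complex.norm_real, Real.norm_eq_abs]
        exact h782.GD.abs_le_len k b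
      refine (norm_add_le _ _).trans ?_
      have h2 := ha i j
      have h3 := ha j i
      rw [mul_comm (v j)] at h3
      linarith
    have h2 : ‖(2 * Real.pi * Complex.I * (h782.GD.sq k : ℂ))‖ = 2 * Real.pi * len k ^ 2 := by
      rw [norm_mul, norm_mul, norm_mul, Complex.norm_I, Complex.norm_real, Complex.norm_real,
        Real.norm_of_nonneg Real.pi_pos.le, Real.norm_of_nonneg (h782.GD.sq_nonneg' k),
        h782.GD.len_sq]
      simp
    rw [h2, div_le_div_iff₀ (by positivity) hl]
    have h3 : 0 ≤ ‖v‖ := norm_nonneg v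
    have h4 : 2 * (len k * ‖v‖) * len k ≤ ‖v‖ * (2 * Real.pi * len k ^ 2) := by
      have h5 : 0 ≤ ‖v‖ * len k ^ 2 := by positivity
      nlinarith
    refine le_trans ?_ h4
    exact mul_le_mul_of_nonneg_right h1 hl.le

theorem anti_summable {c : Cf} (hc : Summable fun k => ‖c k‖ / len k) (i j : Fin 3) :
    Summable (anti c i j) :=
  Summable.of_norm (Summable.of_nonneg_of_le (fun _ => norm_nonneg _)
    (fun k => norm_ac_le i j k (c k)) hc)

theorem S_add {a b : K3 → ℂ} (ha : Summable a) (hb : Summable b) (x : V) :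
    S (a + b) x = S a x + S b x := by
  unfold S
  rw [← (summable_term ha x).tsum_add (summable_term hb x)]
  exact tsum_congr fun k => by rw [Pi.add_apply]; ring

theorem S_neg (a : K3 → ℂ) (x : V) : S (-a) x = -S a x := by
  unfold S
  rw [← tsum_neg]
  exact tsum_congr fun k => by rw [Pi.neg_apply]; ring

theorem anti_add (c d : Cf) (i j : Fin 3) : anti (c + d) i j = anti c i j + anti d i j := by
  funext k
  rw [Pi.add_apply, anti_eq, anti_eq, anti_eq, Pi.add_apply, ac_add]

theorem anti_neg (c : Cf) (i j : Fin 3) : anti (-c) i j = -anti c i j := by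
  funext k
  rw [Pi.neg_apply, anti_eq, anti_eq, Pi.neg_apply, ← neg_one_smul ℂ (c k), ac_smul]
  ring

/-- **Piece W0.** -/
theorem stmAl : StmAl := by
  refine ⟨9, by norm_num, ?_, ?_, ?_⟩
  · intro c d hc hd
    unfold al
    rw [← Finset.sum_add_distrib]
    refine Finset.sum_le_sum fun i _ => ?_
    rw [← Finset.sum_add_distrib]
    refine Finset.sum_le_sum fun j _ => ?_
    have h1 := anti_summable hc i j
    have h2 := anti_summable hd i j
    rw [← integral_add (integrableOn_cube (S_continuous h1).norm)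
      (integrableOn_cube (S_continuous h2).norm)]
    have h3 : Summable (anti (c + d) i j) := by
      rw [anti_add]
      exact h1.add h2
    refine setIntegral_mono_on (integrableOn_cube (S_continuous h3).norm)
      (integrableOn_cube ((S_continuous h1).norm.add (S_continuous h2).norm)) measurableSet_Icc
      fun x _ => ?_
    rw [anti_add, S_add h1 h2]
    exact norm_add_le _ _
  · intro c
    unfold al
    refine Finset.sum_congr rfl fun i _ => Finset.sum_congr rfl fun j _ => ?_
    congr 1
    funext x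
    rw [anti_neg, S_neg, norm_neg]
  · intro c hc
    unfold al
    have h : ∀ i j : Fin 3, ∫ x in cube, ‖S (anti c i j) x‖ ≤ ∑' k, ‖c k‖ / len k := by
      intro i j
      have h1 := anti_summable hc i j
      have h2 : ∀ x, ‖S (anti c i j) x‖ ≤ ∑' k, ‖c k‖ / len k := fun x =>
        (norm_S_le h1 x).trans
          (Summable.tsum_le_tsum (fun k => norm_ac_le i j k (c k)) h1.norm hc)
      have h3 := setIntegral_mono_on (integrableOn_cube (S_continuous h1).norm)
        (integrableOn_cube (continuous_const (y := ∑' k, ‖c k‖ / len k))) measurableSet_Icc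
        (fun x _ => h2 x)
      refine h3.trans (le_of_eq ?_)
      have := cube_finite
      rw [integral_const, smul_eq_mul, measureReal_restrict_apply_univ, Measure.real, volume_cube]
      simp
    calc ∑ i, ∑ j, ∫ x in cube, ‖S (anti c i j) x‖
        ≤ ∑ _i : Fin 3, ∑ _j : Fin 3, ∑' k, ‖c k‖ / len k :=
          Finset.sum_le_sum fun i _ => Finset.sum_le_sum fun j _ => h i j
      _ = 9 * ∑' k, ‖c k‖ / len k := by
          simp only [Finset.sum_const, Finset.card_univ, Fintype.card_fin, nsmul_eq_mul]
          push_cast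
          ring

/-! ### The Riemann-Lebesgue lemma -/

theorem ph_nsmul (m : ℕ) (n : K3) (x : V) : ph (m • n) x = m * ph n x := by
  unfold ph
  rw [Finset.mul_sum]
  refine Finset.sum_congr rfl fun j _ => ?_
  rw [Pi.smul_apply, nsmul_eq_mul]
  push_cast
  ring

theorem riemann_lebesgue {f : V → ℝ} (hf : Continuous f) {n : K3} (hn : n ≠ 0) :
    Tendsto (fun m : ℕ => ∫ x in cube, f x * Real.cos (2 * Real.pi * (m * ph n x))) atTop
      (𝓝 0) := by
  set φ : StrongDual ℝ V := ∑ j, (n j : ℝ) • ContinuousLinearMap.proj (R := ℝ) j with hφ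
  have hφx : ∀ x : V, φ x = ph n x := by
    intro x
    rw [hφ, sum_apply]
    rfl
  obtain ⟨j, hj⟩ : ∃ j, n j ≠ 0 := Function.ne_iff.1 hn
  have hφ0 : φ ≠ 0 := by
    intro h
    have h1 := hφx (Pi.single j 1)
    rw [h, ph_single] at h1
    have h2 : (n j : ℝ) ≠ 0 := by exact_mod_cast hj
    apply h2
    simpa using h1.symm
  have hw : Tendsto (fun m : ℕ => (m : ℝ) • φ) atTop (cocompact (StrongDual ℝ V)) := by
    rw [← Metric.cobounded_eq_cocompact, ← tendsto_norm_atTop_iff_cobounded]
    have h1 : ∀ m : ℕ, ‖(m : ℝ) • φ‖ = m * ‖φ‖ := fun m => by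
      rw [norm_smul, Real.norm_of_nonneg (Nat.cast_nonneg _)]
    simp_rw [h1]
    exact tendsto_natCast_atTop_atTop.atTop_mul_const (norm_pos_iff.2 hφ0)
  have h1 := (tendsto_integral_exp_smul_cocompact (fun x : V => cube.indicator
    (fun x => (f x : ℂ)) x) (volume : Measure V)).comp hw
  have hmc : MeasurableSet cube := measurableSet_Icc
  have h2 : ∀ m : ℕ, (∫ v : V, (Real.fourierChar (-(((m : ℝ) • φ) v)) : Circle)
      • cube.indicator (fun x => (f x : ℂ)) v).re
      = ∫ x in cube, f x * Real.cos (2 * Real.pi * (m * ph n x)) := by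
    intro m
    have e1 : (fun v : V => (Real.fourierChar (-(((m : ℝ) • φ) v)) : Circle)
        • cube.indicator (fun x => (f x : ℂ)) v)
        = cube.indicator (fun v => Complex.exp (((2 * Real.pi * -(m * ph n v) : ℝ) : ℂ) * Complex.I)
          * (f v : ℂ)) := by
      funext v
      by_cases hv : v ∈ cube
      · rw [indicator_of_mem hv, indicator_of_mem hv, Circle.smul_def, smul_eq_mul,
          Real.fourierChar_apply, show ((m : ℝ) • φ) v = m * ph n v by rw [← hφx]; rfl]
      · rw [indicator_of_notMem hv, indicator_of_notMem hv, smul_zero]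
    rw [e1, integral_indicator hmc]
    have hph : Continuous fun v : V => ph n v := (ph_contDiff n (n := 0)).continuous
    have hc : Continuous fun v : V =>
        Complex.exp (((2 * Real.pi * -(m * ph n v) : ℝ) : ℂ) * Complex.I) * (f v : ℂ) := by
      fun_prop
    have h3 := (integral_re (𝕜 := ℂ) (μ := volume.restrict cube) (integrableOn_cube hc))
    rw [RCLike.re_eq_complex_re] at h3
    rw [← h3]
    congr 1
    funext v
    rw [Complex.mul_re, Complex.ofReal_re, Complex.ofReal_im, mul_zero, sub_zero, mul_comm,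
      Complex.exp_ofReal_mul_I_re]
    congr 1
    rw [mul_neg, Real.cos_neg]
  have h3 := (Complex.continuous_re.tendsto 0).comp h1
  rw [Complex.zero_re] at h3
  refine h3.congr fun m => ?_
  exact h2 m

end Pool.Agent.Run7.h811.WS
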