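import Pool.Agent.Run7.h811.WS.AlA
import Pool.Agent.Run7.h969.GG.Unit

/-!
Piece W2a of the project WS: the antidivergence of the waves, part B.
-/

set_option autoImplicit false

open MeasureTheory Set Filter Topology
open scoped ContDiff ENNReal

namespace Pool.Agent.Run7.h811.WS

open H459R3.NS Pool.Agent.Run7 Pool.Agent.Run7.h782.GD Pool.Agent.Run7.h782.GS
open Pool.Agent.Run7.h782.WS Pool.Agent.Run7.h969.GG

/-- The limit of the coefficients. -/
noncomputable def bc (i j : Fin 3) (n : K3) (v : C3) : ℂ :=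
  (v i * (n j : ℂ) + (n i : ℂ) * v j) / (2 * Real.pi * Complex.I * (len n : ℂ))

/-- The coefficients as a rational function of the rescaled frequency. -/
noncomputable def gf (a : ℂ) (v : C3) (i j : Fin 3) (x : C3) : ℂ :=
  a * ((v i - x i * ((∑ l, x l * v l) / ∑ l, x l ^ 2)) * x j
    + x i * (v j - x j * ((∑ l, x l * v l) / ∑ l, x l ^ 2)))
    / (2 * Real.pi * Complex.I * ∑ l, x l ^ 2)

theorem gf_scale (a : ℂ) (v : C3) (i j : Fin 3) (k : K3) {M : ℕ} (hM : 0 < M) :
    gf a v i j (fun l => (k l : ℂ) / M) = (M * a) * ac i j k (prj k v) := by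
  have hM' : (M : ℂ) ≠ 0 := by exact_mod_cast hM.ne'
  have e1 : ∑ l, ((k l : ℂ) / M) * v l = kd k v / M := by
    unfold kd
    rw [Finset.sum_div]
    exact Finset.sum_congr rfl fun l _ => by ring
  have e2 : ∑ l, ((k l : ℂ) / M) ^ 2 = (h782.GD.sq k : ℂ) / M ^ 2 := by
    unfold h782.GD.sq
    push_cast
    rw [Finset.sum_div]
    exact Finset.sum_congr rfl fun l _ => by ring
  unfold gf ac prj
  dsimp only
  rw [e1, e2]
  by_cases hk : (h782.GD.sq k : ℂ) = 0
  · simp [hk]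
  · have hpi : (Real.pi : ℂ) ≠ 0 := by exact_mod_cast Real.pi_ne_zero
    have hI := Complex.I_ne_zero
    field_simp

theorem gf_contAt (a : ℂ) (v : C3) (i j : Fin 3) {x : C3} (hx : ∑ l, x l ^ 2 ≠ 0) :
    ContinuousAt (gf a v i j) x := by
  have hpi : (Real.pi : ℂ) ≠ 0 := by exact_mod_cast Real.pi_ne_zero
  have hd : 2 * Real.pi * Complex.I * ∑ l, x l ^ 2 ≠ 0 :=
    mul_ne_zero (mul_ne_zero (mul_ne_zero two_ne_zero hpi) Complex.I_ne_zero) hx
  have hs1 : Continuous fun x : C3 => ∑ l, x l * v l := by fun_prop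
  have hs2 : Continuous fun x : C3 => ∑ l, x l ^ 2 := by fun_prop
  have hq : ContinuousAt (fun x : C3 => (∑ l, x l * v l) / ∑ l, x l ^ 2) x :=
    hs1.continuousAt.div hs2.continuousAt hx
  have ha : ∀ l, ContinuousAt (fun x : C3 => x l) x := fun l => (continuous_apply l).continuousAt
  have hw : ∀ l, ContinuousAt (fun x : C3 => v l - x l * ((∑ l, x l * v l) / ∑ l, x l ^ 2)) x :=
    fun l => continuousAt_const.sub ((ha l).mul hq)
  exact (continuousAt_const.mul (((hw i).mul (ha j)).add ((ha i).mul (hw j)))).div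
    (continuousAt_const.mul hs2.continuousAt) hd

theorem gf_lim (a : ℂ) {v : C3} (i j : Fin 3) {n : K3} (hn : n ≠ 0) (p : K3) :
    Tendsto (fun M : ℕ => ((M : ℂ) * a) * ac i j (p + M • n) (prj (p + M • n) v)) atTop
      (𝓝 (gf a v i j (fun l => (n l : ℂ)))) := by
  have hx : Tendsto (fun M : ℕ => fun l => (((p + M • n) l : ℤ) : ℂ) / M) atTop
      (𝓝 (fun l => (n l : ℂ))) := by
    rw [tendsto_pi_nhds]
    intro l
    have h1 : Tendsto (fun M : ℕ => (p l : ℝ) / M + (n l : ℝ)) atTop (𝓝 (0 + (n l : ℝ))) :=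
      (tendsto_const_div_atTop_nhds_zero_nat (p l : ℝ)).add_const _
    rw [zero_add] at h1
    have h2 := (Complex.continuous_ofReal.tendsto _).comp h1
    have h3 : (((n l : ℤ) : ℝ) : ℂ) = (n l : ℂ) := by push_cast; rfl
    rw [h3] at h2
    refine h2.congr' ?_
    filter_upwards [eventually_gt_atTop 0] with M hM
    have hM' : (M : ℂ) ≠ 0 := by exact_mod_cast hM.ne'
    show ((((p l : ℤ) : ℝ) / (M : ℝ) + ((n l : ℤ) : ℝ) : ℝ) : ℂ) = _
    rw [Pi.add_apply, Pi.smul_apply, nsmul_eq_mul]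
    push_cast
    field_simp
  have hn2 : ∑ l, ((n l : ℤ) : ℂ) ^ 2 ≠ 0 := by
    have h1 : ∑ l, ((n l : ℤ) : ℂ) ^ 2 = (h782.GD.sq n : ℂ) := by
      unfold h782.GD.sq
      push_cast
      rfl
    rw [h1]
    exact_mod_cast (h782.GD.sq_pos' hn).ne'
  have h1 := (gf_contAt a v i j hn2).tendsto.comp hx
  refine h1.congr' ?_
  filter_upwards [eventually_gt_atTop 0] with M hM
  exact gf_scale a v i j (p + M • n) hM

theorem gf_eq {v : C3} (i j : Fin 3) {n : K3} (hn : n ≠ 0) (hv : kd n v = 0) :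
    gf (len n) v i j (fun l => (n l : ℂ)) = bc i j n v := by
  have h1 : ∑ l, ((n l : ℤ) : ℂ) ^ 2 = (len n : ℂ) ^ 2 := by
    rw [← Complex.ofReal_pow, h782.GD.len_sq]
    unfold h782.GD.sq
    push_cast
    rfl
  have h2 : ∑ l, (n l : ℂ) * v l = 0 := hv
  have hl : (len n : ℂ) ≠ 0 := by exact_mod_cast (h782.GD.len_pos hn).ne'
  have hpi : (Real.pi : ℂ) ≠ 0 := by exact_mod_cast Real.pi_ne_zero
  have hI := Complex.I_ne_zero
  unfold gf bc
  dsimp only
  rw [h1, h2]
  field_simp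
  ring

theorem bc_neg (i j : Fin 3) (n : K3) (v : C3) : bc i j (-n) v = -bc i j n v := by
  unfold bc
  rw [h782.GD.len_neg, Pi.neg_apply, Pi.neg_apply]
  push_cast
  ring

theorem ac_lim {v : C3} (i j : Fin 3) {n : K3} (hn : n ≠ 0) (hv : kd n v = 0) (p : K3) :
    Tendsto (fun M : ℕ => ((M : ℂ) * len n) * ac i j (p + M • n) (prj (p + M • n) v)) atTop
      (𝓝 (bc i j n v)) := by
  rw [← gf_eq i j hn hv]
  exact gf_lim _ i j hn p

theorem ac_lim' {v : C3} (i j : Fin 3) {n : K3} (hn : n ≠ 0) (hv : kd n v = 0) (p : K3) :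
    Tendsto (fun M : ℕ => ((M : ℂ) * len n) * ac i j (p + -(M • n)) (prj (p + -(M • n)) v)) atTop
      (𝓝 (-bc i j n v)) := by
  have h1 := ac_lim (v := v) i j (n := -n) (neg_ne_zero.2 hn)
    (by rw [h782.GD.kd_neg_left, hv, neg_zero]) p
  rw [bc_neg, h782.GD.len_neg] at h1
  simpa only [smul_neg] using h1

/-- The error. -/
noncomputable def er (n : K3) (s : Cf) (P : Finset K3) (M : ℕ) (i j : Fin 3) : ℝ :=
  ∑ p ∈ P, (‖((M : ℂ) * len n) * ac i j (p + M • n) (prj (p + M • n) (s p)) - bc i j n (s p)‖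
    + ‖((M : ℂ) * len n) * ac i j (p + -(M • n)) (prj (p + -(M • n)) (s p)) + bc i j n (s p)‖)

variable {n : K3} {s : Cf} {P : Finset K3}

theorem er_lim (hn : n ≠ 0) (hk : ∀ p, kd n (s p) = 0) (i j : Fin 3) :
    Tendsto (fun M => er n s P M i j) atTop (𝓝 0) := by
  have h : ∀ p ∈ P, Tendsto (fun M : ℕ =>
      (‖((M : ℂ) * len n) * ac i j (p + M • n) (prj (p + M • n) (s p)) - bc i j n (s p)‖
      + ‖((M : ℂ) * len n) * ac i j (p + -(M • n)) (prj (p + -(M • n)) (s p))
        + bc i j n (s p)‖)) atTop (𝓝 0) := by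
    intro p _
    have h1 := ((ac_lim i j hn (hk p) p).sub_const (bc i j n (s p))).norm
    have h2 := ((ac_lim' i j hn (hk p) p).add_const (bc i j n (s p))).norm
    rw [sub_self, norm_zero] at h1
    rw [neg_add_cancel, norm_zero] at h2
    have h3 := h1.add h2
    rwa [add_zero] at h3
  have h1 := tendsto_finsetSum P h
  rw [Finset.sum_const_zero] at h1
  exact h1

theorem anti_sp_zero (hP : ∀ p ∉ P, s p = 0) (m : K3) (i j : Fin 3) {p : K3} (hp : p ∉ P) :
    anti (sp m s) i j (p + m) = 0 := by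
  rw [anti_eq, sp, add_sub_cancel_right, hP p hp, h782.GD.prj_zero, ac_zero]

theorem summable_anti_sp (hP : ∀ p ∉ P, s p = 0) (m : K3) (i j : Fin 3) :
    Summable (anti (sp m s) i j) := by
  classical
  refine summable_of_ne_finset_zero (s := P.image (· + m)) fun k hk => ?_
  have h1 := anti_sp_zero hP m i j (p := k - m) (fun h => hk (Finset.mem_image.2
    ⟨k - m, h, sub_add_cancel k m⟩))
  rwa [sub_add_cancel] at h1

theorem S_sp (hP : ∀ p ∉ P, s p = 0) (m : K3) (i j : Fin 3) (x : V) :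
    S (anti (sp m s) i j) x
      = ∑ p ∈ P, ac i j (p + m) (prj (p + m) (s p)) * ee (p + m) x := by
  unfold S
  rw [← (Equiv.addRight m).tsum_eq fun k => anti (sp m s) i j k * ee k x]
  rw [tsum_eq_sum (s := P)]
  · refine Finset.sum_congr rfl fun p _ => ?_
    rw [Equiv.coe_addRight, anti_eq, sp, add_sub_cancel_right]
  · intro p hp
    rw [Equiv.coe_addRight, anti_sp_zero hP m i j hp, zero_mul]

theorem S_wv (hP : ∀ p ∉ P, s p = 0) (M : ℕ) (i j : Fin 3) (x : V) :
    ‖((M : ℂ) * len n) * S (anti (wv M n s) i j) x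
      - (∑ p ∈ P, bc i j n (s p) * ee p x) * (ee (M • n) x - ee (-(M • n)) x)‖
      ≤ er n s P M i j := by
  rw [wv_eq, anti_add, S_add (summable_anti_sp hP _ i j) (summable_anti_sp hP _ i j), S_sp hP,
    S_sp hP]
  have e : ((M : ℂ) * len n) * ((∑ p ∈ P, ac i j (p + M • n) (prj (p + M • n) (s p))
        * ee (p + M • n) x) + ∑ p ∈ P, ac i j (p + -(M • n)) (prj (p + -(M • n)) (s p))
        * ee (p + -(M • n)) x)
      - (∑ p ∈ P, bc i j n (s p) * ee p x) * (ee (M • n) x - ee (-(M • n)) x)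
      = ∑ p ∈ P, ((((M : ℂ) * len n) * ac i j (p + M • n) (prj (p + M • n) (s p))
          - bc i j n (s p)) * ee (p + M • n) x
        + (((M : ℂ) * len n) * ac i j (p + -(M • n)) (prj (p + -(M • n)) (s p))
          + bc i j n (s p)) * ee (p + -(M • n)) x) := by
    rw [Finset.sum_mul, ← Finset.sum_add_distrib, Finset.mul_sum, ← Finset.sum_sub_distrib]
    refine Finset.sum_congr rfl fun p _ => ?_
    rw [ee_add_left, ee_add_left]
    ring
  rw [e]
  refine (norm_sum_le _ _).trans (Finset.sum_le_sum fun p _ => ?_)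
  refine (norm_add_le _ _).trans (le_of_eq ?_)
  rw [norm_mul, norm_mul, norm_ee, norm_ee, mul_one, mul_one]

theorem S_supp (hP : ∀ p ∉ P, s p = 0) (i : Fin 3) (x : V) :
    S (fun k => s k i) x = ∑ p ∈ P, s p i * ee p x := by
  unfold S
  refine tsum_eq_sum fun p hp => ?_
  show s p i * ee p x = 0
  rw [hP p hp, Pi.zero_apply, zero_mul]

theorem S_bc (hn : n ≠ 0) (hP : ∀ p ∉ P, s p = 0) (i j : Fin 3) (x : V) :
    ‖∑ p ∈ P, bc i j n (s p) * ee p x‖
      ≤ (‖S (fun k => s k i) x‖ + ‖S (fun k => s k j) x‖) / (2 * Real.pi) := by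
  have hl := h782.GD.len_pos hn
  have e : ∑ p ∈ P, bc i j n (s p) * ee p x
      = (S (fun k => s k i) x * (n j : ℂ) + (n i : ℂ) * S (fun k => s k j) x)
        / (2 * Real.pi * Complex.I * (len n : ℂ)) := by
    rw [S_supp hP, S_supp hP, Finset.sum_mul, Finset.mul_sum, ← Finset.sum_add_distrib,
      Finset.sum_div]
    refine Finset.sum_congr rfl fun p _ => ?_
    unfold bc
    ring
  rw [e, norm_div]
  have h2 : ‖(2 * Real.pi * Complex.I * (len n : ℂ))‖ = 2 * Real.pi * len n := by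
    rw [norm_mul, norm_mul, norm_mul, Complex.norm_I, Complex.norm_real, Complex.norm_real,
      Real.norm_of_nonneg Real.pi_pos.le, Real.norm_of_nonneg hl.le]
    simp
  have hnj : ∀ a : Fin 3, ‖((n a : ℤ) : ℂ)‖ ≤ len n := by
    intro a
    have : ((n a : ℤ) : ℂ) = (((n a : ℤ) : ℝ) : ℂ) := by push_cast; rfl
    rw [this, Complex.norm_real, Real.norm_eq_abs]
    exact h782.GD.abs_le_len n a
  have h1 : ‖S (fun k => s k i) x * (n j : ℂ) + (n i : ℂ) * S (fun k => s k j) x‖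
      ≤ (‖S (fun k => s k i) x‖ + ‖S (fun k => s k j) x‖) * len n := by
    refine (norm_add_le _ _).trans ?_
    rw [norm_mul, norm_mul, add_mul, mul_comm ‖((n i : ℤ) : ℂ)‖]
    exact add_le_add (mul_le_mul_of_nonneg_left (hnj j) (norm_nonneg _))
      (mul_le_mul_of_nonneg_left (hnj i) (norm_nonneg _))
  rw [h2, div_le_div_iff₀ (by positivity) (by positivity)]
  have hpi := Real.pi_pos
  calc _ ≤ ((‖S (fun k => s k i) x‖ + ‖S (fun k => s k j) x‖) * len n) * (2 * Real.pi) :=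
        mul_le_mul_of_nonneg_right h1 (by positivity)
    _ = _ := by ring

theorem ee_sub (M : ℕ) (n : K3) (x : V) : ee (M • n) x - ee (-(M • n)) x
    = ((2 * Real.sin (2 * Real.pi * (M * ph n x)) : ℝ) : ℂ) * Complex.I := by
  have h1 : ee (M • n) x = Complex.exp (((2 * Real.pi * (M * ph n x) : ℝ) : ℂ) * Complex.I) := by
    rw [ee, ph_nsmul]
    congr 1
    push_cast
    ring
  rw [ee_neg, Complex.sub_conj, h1, Complex.exp_ofReal_mul_I_im]

end Pool.Agent.Run7.h811.WS
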